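import Mathlib
import Pool.Agent.Helper585.Wk.Defs

set_option autoImplicit false

/-! Geometric simplicial complexes versus abstract ones in barycentric coordinates. -/

namespace Pool.Agent.H823R2

open Pool.Agent.Helper585.Wk Set

variable {E : Type} [NormedAddCommGroup E] [NormedSpace ℝ E]

/-- the space of an abstract complex is compact -/
theorem space_compact {n : ℕ} (K : Cx n) : IsCompact (K.space : Set (Fin n → ℝ)) := by
  have h1 : IsClosed (K.space : Set (Fin n → ℝ)) := by
    have : (K.space : Set (Fin n → ℝ)) = ⋃ σ ∈ K.faces,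
        ({x | ∀ v, 0 ≤ x v} ∩ {x | ∑ v, x v = 1} ∩ {x | ∀ v, v ∉ σ → x v = 0}) := by
      ext x
      simp only [Cx.space, mem_ofPred_eq, mem_iUnion, mem_inter_iff, exists_prop]
      constructor
      · rintro ⟨h1, h2, σ, hσ, h3⟩
        exact ⟨σ, hσ, ⟨h1, h2⟩, h3⟩
      · rintro ⟨σ, hσ, ⟨h1, h2⟩, h3⟩
        exact ⟨h1, h2, σ, hσ, h3⟩
    rw [this]
    refine isClosed_biUnion_finset fun σ _ => ?_
    refine (IsClosed.inter ?_ ?_).inter ?_
    · simp only [ofPred_forall]
      exact isClosed_iInter fun v => isClosed_le continuous_const (continuous_apply v)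
    · exact isClosed_eq (continuous_finsetSum _ fun v _ => continuous_apply v) continuous_const
    · simp only [ofPred_forall]
      exact isClosed_iInter fun v => isClosed_iInter fun _ =>
        isClosed_eq (continuous_apply v) continuous_const
  refine (isCompact_Icc (a := (0 : Fin n → ℝ)) (b := 1)).of_isClosed_subset h1 ?_
  rintro x ⟨h1, h2, -⟩
  refine ⟨fun v => h1 v, fun v => ?_⟩
  show x v ≤ 1
  rw [← h2]
  exact Finset.single_le_sum (fun i _ => h1 i) (Finset.mem_univ v)

/-- uniqueness of weights on an affinely independent finite set of points -/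
theorem weights_unique {m : ℕ} (g : Fin m → E)
    (σ : Finset (Fin m)) (hσ : AffineIndependent ℝ (fun p : σ => g p.1))
    (x y : Fin m → ℝ) (hx : ∀ v, v ∉ σ → x v = 0) (hy : ∀ v, v ∉ σ → y v = 0)
    (hx1 : ∑ v, x v = 1) (hy1 : ∑ v, y v = 1)
    (h : ∑ v, x v • g v = ∑ v, y v • g v) : x = y := by
  classical
  rw [affineIndependent_iff] at hσ
  have hsum : ∀ z : Fin m → ℝ, (∀ v, v ∉ σ → z v = 0) → ∑ v ∈ σ, z v = ∑ v, z v := fun z hz =>
    Finset.sum_subset (Finset.subset_univ _) fun v _ hv => hz v hv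
  have hsum' : ∀ z : Fin m → ℝ, (∀ v, v ∉ σ → z v = 0) →
      ∑ v ∈ σ, z v • g v = ∑ v, z v • g v := fun z hz =>
    Finset.sum_subset (Finset.subset_univ _) fun v _ hv => by rw [hz v hv, zero_smul]
  have h1 := hσ Finset.univ (fun p => x p.1 - y p.1) (by
    rw [Finset.sum_sub_distrib]
    have e1 : ∑ p : σ, x p.1 = 1 := by
      rw [Finset.sum_coe_sort σ x, hsum x hx, hx1]
    have e2 : ∑ p : σ, y p.1 = 1 := by
      rw [Finset.sum_coe_sort σ y, hsum y hy, hy1]
    rw [e1, e2, sub_self]) (by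
    simp only [sub_smul]
    rw [Finset.sum_sub_distrib]
    have e1 : ∑ p : σ, x p.1 • g p.1 = ∑ v, x v • g v := by
      rw [Finset.sum_coe_sort σ (fun v => x v • g v), hsum' x hx]
    have e2 : ∑ p : σ, y p.1 • g p.1 = ∑ v, y v • g v := by
      rw [Finset.sum_coe_sort σ (fun v => y v • g v), hsum' y hy]
    rw [e1, e2, h, sub_self])
  funext v
  by_cases hv : v ∈ σ
  · have := h1 ⟨v, hv⟩ (Finset.mem_univ _)
    simpa [sub_eq_zero] using this
  · rw [hx v hv, hy v hv]

/-- points of the convex hull of finitely many points are given by weights -/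
theorem mem_hull_iff {m : ℕ} (g : Fin m → E) (σ : Finset (Fin m)) (p : E) :
    p ∈ convexHull ℝ (g '' (σ : Set (Fin m))) ↔ ∃ x : Fin m → ℝ, (∀ v, 0 ≤ x v) ∧ ∑ v, x v = 1 ∧
      (∀ v, v ∉ σ → x v = 0) ∧ ∑ v, x v • g v = p := by
  classical
  constructor
  · intro hp
    have hsub : convexHull ℝ (g '' (σ : Set (Fin m))) ⊆
        {p | ∃ x : Fin m → ℝ, (∀ v, 0 ≤ x v) ∧ ∑ v, x v = 1 ∧
      (∀ v, v ∉ σ → x v = 0) ∧ ∑ v, x v • g v = p} := by
      apply convexHull_min
      · rintro _ ⟨i, hi, rfl⟩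
        refine ⟨Pi.single i 1, fun v => ?_, ?_, fun v hv => ?_, ?_⟩
        · by_cases h : v = i
          · subst h; simp
          · simp [Pi.single_apply, h]
        · simp
        · have : v ≠ i := fun h => hv (by rw [h]; exact hi)
          simp [Pi.single_apply, this]
        · rw [Finset.sum_eq_single i]
          · simp
          · intro b _ hb
            simp [Pi.single_apply, hb]
          · simp
      · rintro p ⟨x, hx0, hx1, hxs, rfl⟩ q ⟨y, hy0, hy1, hys, rfl⟩ a b ha hb hab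
        refine ⟨fun v => a * x v + b * y v, fun v => ?_, ?_, fun v hv => ?_, ?_⟩
        · exact add_nonneg (mul_nonneg ha (hx0 v)) (mul_nonneg hb (hy0 v))
        · rw [Finset.sum_add_distrib, ← Finset.mul_sum, ← Finset.mul_sum, hx1, hy1]
          linarith
        · simp [hxs v hv, hys v hv]
        · rw [Finset.smul_sum, Finset.smul_sum, ← Finset.sum_add_distrib]
          exact Finset.sum_congr rfl fun v _ => by rw [add_smul, mul_smul, mul_smul]
    exact hsub hp
  · rintro ⟨x, hx0, hx1, hxs, rfl⟩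
    have e1 : ∑ v, x v • g v = ∑ v ∈ σ, x v • g v :=
      (Finset.sum_subset (Finset.subset_univ _) fun v _ hv => by rw [hxs v hv, zero_smul]).symm
    have e2 : ∑ v ∈ σ, x v = 1 := by
      rw [← hx1]
      exact Finset.sum_subset (Finset.subset_univ _) fun v _ hv => hxs v hv
    rw [e1]
    exact (convex_convexHull ℝ _).sum_mem (fun v _ => hx0 v) e2
      fun v hv => subset_convexHull ℝ _ ⟨v, hv, rfl⟩


section
variable {m : ℕ} (K : Geometry.SimplicialComplex ℝ E) (L : Cx m) (g : Fin m → E)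
    (hg : Function.Injective g)
    (h : ∀ τ : Finset (Fin m), τ.Nonempty →
      (τ ∈ L.faces ↔ τ.map ⟨g, hg⟩ ∈ K.faces))
    (hr : ∀ s ∈ K.faces, ∃ τ : Finset (Fin m), τ.map ⟨g, hg⟩ = s)

include h hr

theorem faces_eq : K.faces = (fun τ : Finset (Fin m) => τ.map ⟨g, hg⟩) ''
    {τ | τ ∈ L.faces ∧ τ.Nonempty} := by
  ext s
  constructor
  · intro hs
    obtain ⟨τ, rfl⟩ := hr s hs
    have hne : τ.Nonempty := by
      have := K.nonempty_of_mem_faces hs
      simpa using this
    exact ⟨τ, ⟨(h τ hne).2 hs, hne⟩, rfl⟩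
  · rintro ⟨τ, ⟨hτ, hne⟩, rfl⟩
    exact (h τ hne).1 hτ

theorem faces_finite : K.faces.Finite := by
  rw [faces_eq K L g hg h hr]
  exact (L.faces.finite_toSet.subset fun τ hτ => hτ.1).image _

theorem f_eq (i : ℕ) : ({s ∈ K.faces | s.card = i + 1} : Set (Finset E)).ncard = L.f i := by
  have : ({s ∈ K.faces | s.card = i + 1} : Set (Finset E)) =
      (fun τ : Finset (Fin m) => τ.map ⟨g, hg⟩) ''
        ((L.faces.filter (fun σ => σ.card = i + 1) : Finset (Finset (Fin m))) :
          Set (Finset (Fin m))) := by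
    rw [faces_eq K L g hg h hr]
    ext s
    constructor
    · rintro ⟨⟨τ, ⟨hτ, hne⟩, rfl⟩, hc⟩
      simp only [Finset.card_map] at hc
      exact ⟨τ, by simp [hτ, hc], rfl⟩
    · rintro ⟨τ, hτ, rfl⟩
      simp only [Finset.coe_filter, mem_ofPred_eq] at hτ
      refine ⟨⟨τ, ⟨hτ.1, ?_⟩, rfl⟩, by simpa using hτ.2⟩
      rw [← Finset.card_pos, hτ.2]
      omega
  rw [this, Set.ncard_image_of_injective _ (Finset.map_injective _), Set.ncard_coe_finset, Cx.f]

theorem space_homeo : Nonempty (L.space ≃ₜ K.space) := by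
  classical
  let Φ : (Fin m → ℝ) → E := fun x => ∑ v, x v • g v
  have hΦc : Continuous Φ := continuous_finsetSum _ fun v _ =>
    (continuous_apply v).smul continuous_const
  have hcoe : ∀ τ : Finset (Fin m), ((τ.map ⟨g, hg⟩ : Finset E) : Set E) = g '' (τ : Set (Fin m)) := by
    intro τ
    simp
  have hmaps : ∀ x ∈ L.space, Φ x ∈ K.space := by
    rintro x ⟨hx0, hx1, σ, hσ, hxs⟩
    have hne : σ.Nonempty := by
      rw [Finset.nonempty_iff_ne_empty]
      rintro rfl
      have : ∑ v, x v = 0 := Finset.sum_eq_zero fun v _ => hxs v (by simp)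
      rw [this] at hx1
      exact zero_ne_one hx1
    rw [Geometry.SimplicialComplex.mem_space_iff]
    refine ⟨_, (h σ hne).1 hσ, ?_⟩
    rw [hcoe, mem_hull_iff]
    exact ⟨x, hx0, hx1, hxs, rfl⟩
  have hinj : ∀ x ∈ L.space, ∀ y ∈ L.space, Φ x = Φ y → x = y := by
    rintro x ⟨hx0, hx1, σ, hσ, hxs⟩ y ⟨hy0, hy1, τ, hτ, hys⟩ hxy
    have hne : σ.Nonempty := by
      rw [Finset.nonempty_iff_ne_empty]
      rintro rfl
      have : ∑ v, x v = 0 := Finset.sum_eq_zero fun v _ => hxs v (by simp)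
      rw [this] at hx1
      exact zero_ne_one hx1
    have hne' : τ.Nonempty := by
      rw [Finset.nonempty_iff_ne_empty]
      rintro rfl
      have : ∑ v, y v = 0 := Finset.sum_eq_zero fun v _ => hys v (by simp)
      rw [this] at hy1
      exact zero_ne_one hy1
    have hK1 := (h σ hne).1 hσ
    have hK2 := (h τ hne').1 hτ
    have h1 : Φ x ∈ convexHull ℝ ((σ.map ⟨g, hg⟩ : Finset E) : Set E) ∩
        convexHull ℝ ((τ.map ⟨g, hg⟩ : Finset E) : Set E) := by
      refine ⟨?_, ?_⟩
      · rw [hcoe, mem_hull_iff]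
        exact ⟨x, hx0, hx1, hxs, rfl⟩
      · rw [hxy, hcoe, mem_hull_iff]
        exact ⟨y, hy0, hy1, hys, rfl⟩
    have h2 := K.inter_subset_convexHull hK1 hK2 h1
    have h3 : (((σ.map ⟨g, hg⟩ : Finset E) : Set E) ∩ ((τ.map ⟨g, hg⟩ : Finset E) : Set E)) =
        g '' ((σ ∩ τ : Finset (Fin m)) : Set (Fin m)) := by
      rw [hcoe, hcoe, Finset.coe_inter, Set.image_inter hg]
    rw [h3, mem_hull_iff] at h2
    obtain ⟨z, hz0, hz1, hzs, hz⟩ := h2
    have ai : ∀ ρ : Finset (Fin m), ρ.map ⟨g, hg⟩ ∈ K.faces →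
        AffineIndependent ℝ (fun p : ρ => g p.1) := by
      intro ρ hρ
      have hi := K.indep hρ
      let em : ρ ↪ ((ρ.map ⟨g, hg⟩ : Finset E) : Type) :=
        ⟨fun p => ⟨g p.1, by
          rw [Finset.mem_map]
          exact ⟨p.1, p.2, rfl⟩⟩, fun p q hpq => by
            have := congrArg Subtype.val hpq
            exact Subtype.ext (hg this)⟩
      exact hi.comp_embedding em
    have e1 : x = z := weights_unique g σ (ai σ hK1) x z hxs
      (fun v hv => hzs v fun hv' => hv (Finset.mem_inter.1 hv').1) hx1 hz1 hz.symm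
    have e2 : y = z := weights_unique g τ (ai τ hK2) y z hys
      (fun v hv => hzs v fun hv' => hv (Finset.mem_inter.1 hv').2) hy1 hz1
        (hxy.symm.trans hz.symm)
    rw [e1, e2]
  have hsurj : ∀ p ∈ K.space, ∃ x ∈ L.space, Φ x = p := by
    intro p hp
    rw [Geometry.SimplicialComplex.mem_space_iff] at hp
    obtain ⟨s, hs, hp⟩ := hp
    obtain ⟨τ, rfl⟩ := hr s hs
    have hne : τ.Nonempty := by
      have := K.nonempty_of_mem_faces hs
      simpa using this
    rw [hcoe, mem_hull_iff] at hp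
    obtain ⟨x, hx0, hx1, hxs, hx⟩ := hp
    exact ⟨x, ⟨hx0, hx1, τ, (h τ hne).2 hs, hxs⟩, hx⟩
  have : CompactSpace L.space := isCompact_iff_compactSpace.mp (space_compact L)
  let F : L.space → K.space := fun x => ⟨Φ x.1, hmaps x.1 x.2⟩
  have hFc : Continuous F := (hΦc.comp continuous_subtype_val).subtype_mk _
  have hFb : Function.Bijective F := by
    constructor
    · intro x y hxy
      exact Subtype.ext (hinj x.1 x.2 y.1 y.2 (congrArg Subtype.val hxy))
    · rintro ⟨p, hp⟩
      obtain ⟨x, hx, hxp⟩ := hsurj p hp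
      exact ⟨⟨x, hx⟩, Subtype.ext hxp⟩
  exact ⟨(hFc.homeoOfEquivCompactToT2 (f := Equiv.ofBijective F hFb))⟩

end

/-- every finite geometric complex has an abstract model -/
theorem geo_to_cx (K : Geometry.SimplicialComplex ℝ E) (hf : K.faces.Finite) :
    ∃ (m : ℕ) (L : Cx m), Nonempty (L.space ≃ₜ K.space) ∧
      ∀ i, ({s ∈ K.faces | s.card = i + 1} : Set (Finset E)).ncard = L.f i := by
  classical
  let V : Finset E := hf.toFinset.biUnion id
  let e : Fin V.card ≃ V := V.equivFin.symm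
  let g : Fin V.card → E := fun i => (e i).1
  have hg : Function.Injective g := fun i j hij => e.injective (Subtype.ext hij)
  let L : Cx V.card :=
    { faces := Finset.univ.filter (fun τ => τ = ∅ ∨ τ.map ⟨g, hg⟩ ∈ K.faces)
      empty_mem := by simp
      down := by
        intro σ hσ τ hτ
        rw [Finset.mem_filter] at hσ ⊢
        refine ⟨Finset.mem_univ _, ?_⟩
        by_cases h : τ = ∅
        · exact Or.inl h
        right
        have hne : τ.Nonempty := Finset.nonempty_iff_ne_empty.2 h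
        rcases hσ.2 with h' | h'
        · rw [h'] at hτ
          exact absurd (Finset.subset_empty.1 hτ) h
        · exact K.down_closed h' (Finset.map_subset_map.2 hτ) (by simpa using hne) }
  have h : ∀ τ : Finset (Fin V.card), τ.Nonempty →
      (τ ∈ L.faces ↔ τ.map ⟨g, hg⟩ ∈ K.faces) := by
    intro τ hne
    show τ ∈ Finset.univ.filter _ ↔ _
    rw [Finset.mem_filter]
    simp [hne.ne_empty]
  have hr : ∀ s ∈ K.faces, ∃ τ : Finset (Fin V.card), τ.map ⟨g, hg⟩ = s := by
    intro s hs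
    refine ⟨Finset.univ.filter (fun i => g i ∈ s), ?_⟩
    ext p
    rw [Finset.mem_map]
    constructor
    · rintro ⟨i, hi, rfl⟩
      rw [Finset.mem_filter] at hi
      exact hi.2
    · intro hp
      have hpV : p ∈ V := Finset.mem_biUnion.2 ⟨s, by simpa using hs, hp⟩
      refine ⟨e.symm ⟨p, hpV⟩, ?_, ?_⟩
      · rw [Finset.mem_filter]
        refine ⟨Finset.mem_univ _, ?_⟩
        show (e (e.symm ⟨p, hpV⟩)).1 ∈ s
        rw [Equiv.apply_symm_apply]
        exact hp
      · show (e (e.symm ⟨p, hpV⟩)).1 = p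
        rw [Equiv.apply_symm_apply]
  exact ⟨_, L, space_homeo K L g hg h hr, f_eq K L g hg h hr⟩

/-- every abstract complex has a geometric realisation -/
theorem cx_to_geo {m : ℕ} (L : Cx m) :
    ∃ K : Geometry.SimplicialComplex ℝ (EuclideanSpace ℝ (Fin m)), K.faces.Finite ∧
      Nonempty (L.space ≃ₜ K.space) ∧
      ∀ i, ({s ∈ K.faces | s.card = i + 1} : Set (Finset (EuclideanSpace ℝ (Fin m)))).ncard =
        L.f i := by
  classical
  let b := (EuclideanSpace.basisFun (Fin m) ℝ).toBasis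
  let g : Fin m → EuclideanSpace ℝ (Fin m) := b
  have hg : Function.Injective g := b.injective
  have hai : AffineIndependent ℝ g := b.linearIndependent.affineIndependent
  let A : PreAbstractSimplicialComplex (EuclideanSpace ℝ (Fin m)) :=
    { faces := (fun τ : Finset (Fin m) => τ.map ⟨g, hg⟩) '' {τ | τ ∈ L.faces ∧ τ.Nonempty}
      isRelLowerSet_faces := by
        rintro _ ⟨τ, ⟨hτ, hne⟩, rfl⟩
        refine ⟨by simpa using hne, ?_⟩
        intro s hs hsne
        refine ⟨τ.filter (fun i => g i ∈ s), ⟨L.down τ hτ _ (Finset.filter_subset _ _), ?_⟩, ?_⟩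
        · obtain ⟨p, hp⟩ := hsne
          obtain ⟨i, hi, rfl⟩ := Finset.mem_map.1 (hs hp)
          exact ⟨i, Finset.mem_filter.2 ⟨hi, hp⟩⟩
        · ext p
          rw [Finset.mem_map]
          constructor
          · rintro ⟨i, hi, rfl⟩
            exact (Finset.mem_filter.1 hi).2
          · intro hp
            obtain ⟨i, hi, rfl⟩ := Finset.mem_map.1 (hs hp)
            exact ⟨i, Finset.mem_filter.2 ⟨hi, hp⟩, rfl⟩ }
  let K : Geometry.SimplicialComplex ℝ (EuclideanSpace ℝ (Fin m)) :=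
    Geometry.SimplicialComplex.ofAffineIndependent A (by
      refine hai.range.mono ?_
      intro p hp
      simp only [Set.mem_iUnion, Finset.mem_coe] at hp
      obtain ⟨_, ⟨τ, _, rfl⟩, hp⟩ := hp
      obtain ⟨i, hi, rfl⟩ := Finset.mem_map.1 hp
      exact ⟨i, rfl⟩)
  have hK : K.faces = (fun τ : Finset (Fin m) => τ.map ⟨g, hg⟩) ''
      {τ | τ ∈ L.faces ∧ τ.Nonempty} := rfl
  have h : ∀ τ : Finset (Fin m), τ.Nonempty → (τ ∈ L.faces ↔ τ.map ⟨g, hg⟩ ∈ K.faces) := by
    intro τ hne
    rw [hK]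
    constructor
    · intro hτ
      exact ⟨τ, ⟨hτ, hne⟩, rfl⟩
    · rintro ⟨τ', ⟨hτ', -⟩, he⟩
      have := Finset.map_injective _ he
      rwa [← this]
  have hr : ∀ s ∈ K.faces, ∃ τ : Finset (Fin m), τ.map ⟨g, hg⟩ = s := by
    intro s hs
    rw [hK] at hs
    obtain ⟨τ, -, rfl⟩ := hs
    exact ⟨τ, rfl⟩
  exact ⟨K, faces_finite K L g hg h hr, space_homeo K L g hg h hr, f_eq K L g hg h hr⟩

end Pool.Agent.H823R2
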