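import Mathlib
import Pool.Agent.Helper585.Wk.Defs

set_option autoImplicit false

/-! From gluing along the boundary of cells to gluing along the inversion. -/

namespace Pool.Agent.H823R2

open Pool.Agent.Helper585.Wk Set Metric Topology

section Inv

variable {E : Type} [NormedAddCommGroup E] [NormedSpace ℝ E]

/-- inversion in the unit sphere -/
noncomputable def inv' (x : E) : E := (‖x‖ ^ 2)⁻¹ • x

theorem norm_inv' (x : E) : ‖inv' x‖ = ‖x‖⁻¹ := by
  by_cases h : x = 0
  · simp [inv', h]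
  · have : ‖x‖ ≠ 0 := norm_ne_zero_iff.2 h
    rw [inv', norm_smul, norm_inv, norm_pow, norm_norm]
    field_simp

theorem inv'_ne (x : E) (h : x ≠ 0) : inv' x ≠ 0 := by
  rw [← norm_ne_zero_iff, norm_inv']
  exact inv_ne_zero (norm_ne_zero_iff.2 h)

theorem inv'_inv' (x : E) (h : x ≠ 0) : inv' (inv' x) = x := by
  have h' : ‖x‖ ≠ 0 := norm_ne_zero_iff.2 h
  rw [inv', norm_inv', inv', smul_smul]
  have : (‖x‖⁻¹ ^ 2)⁻¹ * (‖x‖ ^ 2)⁻¹ = 1 := by field_simp
  rw [this, one_smul]

theorem inv'_unit (x : E) (h : ‖x‖ = 1) : inv' x = x := by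
  rw [inv', h]; simp

theorem continuousOn_inv' : ContinuousOn (inv' : E → E) {x | x ≠ 0} := by
  apply ContinuousOn.smul _ continuousOn_id
  apply ContinuousOn.inv₀ (by fun_prop)
  intro x hx
  exact pow_ne_zero 2 (norm_ne_zero_iff.2 hx)

theorem one_le_inv' (x : E) (h : x ≠ 0) (h1 : ‖x‖ ≤ 1) : 1 ≤ ‖inv' x‖ := by
  rw [norm_inv']
  exact (one_le_inv₀ (norm_pos_iff.2 h)).2 h1

theorem one_lt_inv' (x : E) (h : x ≠ 0) (h1 : ‖x‖ < 1) : 1 < ‖inv' x‖ := by
  rw [norm_inv']
  exact (one_lt_inv₀ (norm_pos_iff.2 h)).2 h1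

theorem inv'_le_one (x : E) (h1 : 1 ≤ ‖x‖) : ‖inv' x‖ ≤ 1 := by
  rw [norm_inv']
  exact inv_le_one_of_one_le₀ h1

theorem inv'_lt_one (x : E) (h1 : 1 < ‖x‖) : ‖inv' x‖ < 1 := by
  rw [norm_inv']
  exact inv_lt_one_of_one_lt₀ h1

end Inv

section Glue

variable {E : Type} [NormedAddCommGroup E] [NormedSpace ℝ E] [ProperSpace E]
variable {M N Q : Type} [TopologicalSpace M] [TopologicalSpace N] [TopologicalSpace Q] [T2Space M]

/-- one half of the gluing -/
theorem half (A : E → M) (B : E → N) (hA : IsOpenEmbedding A) (hB : IsOpenEmbedding B)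
    (i : ((A '' ball 0 1)ᶜ : Set M) → Q) (j : ((B '' ball 0 1)ᶜ : Set N) → Q)
    (hi : Continuous i) (hj : Continuous j)
    (hopen : ∀ S : Set Q, IsOpen (i ⁻¹' S) → IsOpen (j ⁻¹' S) → IsOpen S)
    (hii : Function.Injective i) (hji : Function.Injective j)
    (hij : ∀ x y, i x = j y ↔ ∃ z : E, ‖z‖ = 1 ∧ x.1 = A z ∧ y.1 = B z) :
    ∃ u : ({A 0}ᶜ : Set M) → Q, IsOpenEmbedding u ∧
      (∀ (p : ({A 0}ᶜ : Set M)) (hp : p.1 ∈ (A '' ball 0 1)ᶜ), u p = i ⟨p.1, hp⟩) ∧
      (∀ (p : ({A 0}ᶜ : Set M)) (x : E) (_ : p.1 = A x) (_ : ‖x‖ ≤ 1)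
        (hb : B (inv' x) ∈ (B '' ball 0 1)ᶜ), u p = j ⟨B (inv' x), hb⟩) := by
  classical
  -- `B y` is outside the open cell when `1 ≤ ‖y‖`
  have hBout : ∀ y : E, 1 ≤ ‖y‖ → B y ∈ (B '' ball 0 1)ᶜ := by
    rintro y hy ⟨z, hz, hzy⟩
    rw [hB.injective hzy, mem_ball_zero_iff] at hz
    linarith
  have hAout : ∀ y : E, 1 ≤ ‖y‖ → A y ∈ (A '' ball 0 1)ᶜ := by
    rintro y hy ⟨z, hz, hzy⟩
    rw [hA.injective hzy, mem_ball_zero_iff] at hz
    linarith
  have hne : ∀ (p : ({A 0}ᶜ : Set M)) (x : E), p.1 = A x → x ≠ 0 := by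
    rintro ⟨p, hp⟩ x hx rfl
    exact hp hx
  -- the inner piece
  have hin : ∀ p : ({A 0}ᶜ : Set M), p.1 ∉ (A '' ball 0 1)ᶜ →
      ∃ x : E, x ≠ 0 ∧ ‖x‖ < 1 ∧ p.1 = A x := by
    rintro p hp
    rw [mem_compl_iff, not_not] at hp
    obtain ⟨x, hx, hxp⟩ := hp
    exact ⟨x, hne p x hxp.symm, mem_ball_zero_iff.1 hx, hxp.symm⟩
  let u : ({A 0}ᶜ : Set M) → Q := fun p =>
    if hp : p.1 ∈ (A '' ball 0 1)ᶜ then i ⟨p.1, hp⟩ else
      j ⟨B (inv' (hin p hp).choose), hBout _ (one_le_inv' _ (hin p hp).choose_spec.1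
        (hin p hp).choose_spec.2.1.le)⟩
  have hu1 : ∀ (p : ({A 0}ᶜ : Set M)) (hp : p.1 ∈ (A '' ball 0 1)ᶜ), u p = i ⟨p.1, hp⟩ := by
    intro p hp
    simp only [u]
    rw [dif_pos hp]
  have hu2' : ∀ (p : ({A 0}ᶜ : Set M)) (x : E) (_ : p.1 = A x) (_ : ‖x‖ < 1)
        (hb : B (inv' x) ∈ (B '' ball 0 1)ᶜ), u p = j ⟨B (inv' x), hb⟩ := by
    intro p x hpx hx hb
    have hp : p.1 ∉ (A '' ball 0 1)ᶜ := by
      rw [mem_compl_iff, not_not, hpx]
      exact ⟨x, mem_ball_zero_iff.2 hx, rfl⟩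
    simp only [u]
    rw [dif_neg hp]
    have h1 : A (hin p hp).choose = A x := (hin p hp).choose_spec.2.2.symm.trans hpx
    have h2 := hA.injective h1
    congr 2
    rw [h2]
  have hu2 : ∀ (p : ({A 0}ᶜ : Set M)) (x : E) (_ : p.1 = A x) (_ : ‖x‖ ≤ 1)
        (hb : B (inv' x) ∈ (B '' ball 0 1)ᶜ), u p = j ⟨B (inv' x), hb⟩ := by
    intro p x hpx hx hb
    rcases lt_or_eq_of_le hx with h | h
    · exact hu2' p x hpx h hb
    · have hp : p.1 ∈ (A '' ball 0 1)ᶜ := by
        rw [hpx]
        exact hAout x h.ge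
      rw [hu1 p hp, hij]
      exact ⟨x, h, hpx, show B (inv' x) = B x from congrArg B (inv'_unit x h)⟩
  refine ⟨u, ?_, hu1, hu2⟩
  -- continuity
  have hF1 : IsClosed {p : ({A 0}ᶜ : Set M) | p.1 ∈ (A '' ball 0 1)ᶜ} := by
    have : IsOpen (A '' ball (0 : E) 1) := hA.isOpenMap _ isOpen_ball
    exact this.isClosed_compl.preimage continuous_subtype_val
  have hF2 : IsClosed {p : ({A 0}ᶜ : Set M) | p.1 ∈ A '' closedBall 0 1} := by
    have : IsCompact (A '' closedBall (0 : E) 1) :=
      (isCompact_closedBall 0 1).image hA.continuous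
    exact this.isClosed.preimage continuous_subtype_val
  have huc : Continuous u := by
    rw [← continuousOn_univ]
    have hcov : (univ : Set ({A 0}ᶜ : Set M)) = {p | p.1 ∈ (A '' ball 0 1)ᶜ} ∪
        {p | p.1 ∈ A '' closedBall 0 1} := by
      ext p
      simp only [mem_univ, mem_union, mem_ofPred_eq, true_iff]
      by_cases h : p.1 ∈ (A '' ball 0 1)ᶜ
      · exact Or.inl h
      · right
        rw [mem_compl_iff, not_not] at h
        exact image_mono ball_subset_closedBall h
    rw [hcov]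
    apply ContinuousOn.union_of_isClosed _ _ hF1 hF2
    · rw [continuousOn_iff_continuous_domRestrict]
      have : ({p : ({A 0}ᶜ : Set M) | p.1 ∈ (A '' ball 0 1)ᶜ}).domRestrict u =
          fun p => i ⟨p.1.1, p.2⟩ := by
        funext p
        exact hu1 p.1 p.2
      rw [this]
      exact hi.comp (by fun_prop)
    · rw [continuousOn_iff_continuous_domRestrict]
      -- the inverse of `A` on its range
      have hex : ∀ p : {p : ({A 0}ᶜ : Set M) | p.1 ∈ A '' closedBall 0 1},
          p.1.1 ∈ range A := fun p => by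
        obtain ⟨x, -, hx⟩ := p.2
        exact ⟨x, hx⟩
      let e := hA.isEmbedding.toHomeomorph
      let f : {p : ({A 0}ᶜ : Set M) | p.1 ∈ A '' closedBall 0 1} → E :=
        fun p => e.symm ⟨p.1.1, hex p⟩
      have hfc : Continuous f := e.symm.continuous.comp (by fun_prop)
      have hfA : ∀ p, p.1.1 = A (f p) := by
        intro p
        have : e (e.symm ⟨p.1.1, hex p⟩) = ⟨p.1.1, hex p⟩ := e.apply_symm_apply _
        exact (congrArg Subtype.val this).symm
      have hf1 : ∀ p, ‖f p‖ ≤ 1 := by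
        intro p
        obtain ⟨x, hx, hxp⟩ := p.2
        have : A x = A (f p) := hxp.trans (hfA p)
        rw [← hA.injective this]
        exact mem_closedBall_zero_iff.1 hx
      have hf0 : ∀ p, f p ≠ 0 := fun p => hne p.1 _ (hfA p)
      have : ({p : ({A 0}ᶜ : Set M) | p.1 ∈ A '' closedBall 0 1}).domRestrict u =
          fun p => j ⟨B (inv' (f p)), hBout _ (one_le_inv' _ (hf0 p) (hf1 p))⟩ := by
        funext p
        exact hu2 p.1 (f p) (hfA p) (hf1 p) _
      rw [this]
      refine hj.comp (Continuous.subtype_mk (hB.continuous.comp ?_) _)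
      exact continuousOn_inv'.comp_continuous hfc hf0
  -- injectivity
  have hui : Function.Injective u := by
    intro p q hpq
    by_cases hp : p.1 ∈ (A '' ball 0 1)ᶜ
    · by_cases hq : q.1 ∈ (A '' ball 0 1)ᶜ
      · rw [hu1 p hp, hu1 q hq] at hpq
        have := congrArg Subtype.val (hii hpq)
        exact Subtype.ext this
      · exfalso
        obtain ⟨x, hx0, hx1, hxq⟩ := hin q hq
        rw [hu1 p hp, hu2' q x hxq hx1 (hBout _ (one_le_inv' _ hx0 hx1.le)), hij] at hpq
        obtain ⟨z, hz, -, hz2⟩ := hpq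
        have := hB.injective hz2
        have h1 := one_lt_inv' x hx0 hx1
        rw [this, hz] at h1
        exact lt_irrefl _ h1
    · obtain ⟨x, hx0, hx1, hxp⟩ := hin p hp
      rw [hu2' p x hxp hx1 (hBout _ (one_le_inv' _ hx0 hx1.le))] at hpq
      by_cases hq : q.1 ∈ (A '' ball 0 1)ᶜ
      · exfalso
        rw [hu1 q hq] at hpq
        obtain ⟨z, hz, -, hz2⟩ := (hij _ _).1 hpq.symm
        have := hB.injective hz2
        have h1 := one_lt_inv' x hx0 hx1
        rw [this, hz] at h1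
        exact lt_irrefl _ h1
      · obtain ⟨y, hy0, hy1, hyq⟩ := hin q hq
        rw [hu2' q y hyq hy1 (hBout _ (one_le_inv' _ hy0 hy1.le))] at hpq
        have h1 := congrArg Subtype.val (hji hpq)
        have h2 := hB.injective h1
        have h3 : x = y := by
          rw [← inv'_inv' x hx0, h2, inv'_inv' y hy0]
        apply Subtype.ext
        rw [hxp, hyq, h3]
  -- openness
  have huo : IsOpenMap u := by
    intro W hW
    apply hopen
    · -- preimage under `i`
      have : i ⁻¹' (u '' W) = (fun p : ((A '' ball 0 1)ᶜ : Set M) => p.1) ⁻¹'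
          ((fun p : ({A 0}ᶜ : Set M) => p.1) '' W) := by
        ext p
        constructor
        · rintro ⟨w, hw, hwp⟩
          have hp0 : p.1 ∈ ({A 0}ᶜ : Set M) := by
            intro h
            apply p.2
            rw [mem_singleton_iff.1 h]
            exact ⟨0, mem_ball_self one_pos, rfl⟩
          have : u ⟨p.1, hp0⟩ = i p := hu1 ⟨p.1, hp0⟩ p.2
          have h2 := hui (this.trans hwp.symm)
          refine ⟨w, hw, ?_⟩
          rw [← h2]
        · rintro ⟨w, hw, hwp⟩
          have hwp' : w.1 = p.1 := hwp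
          refine ⟨w, hw, ?_⟩
          rw [hu1 w (by rw [hwp']; exact p.2)]
          congr 1
          exact Subtype.ext hwp'
      rw [this]
      refine IsOpen.preimage continuous_subtype_val ?_
      exact (isClosed_singleton.isOpen_compl.isOpenEmbedding_subtypeVal).isOpenMap _ hW
    · -- preimage under `j`
      have : j ⁻¹' (u '' W) = (fun p : ((B '' ball 0 1)ᶜ : Set N) => p.1) ⁻¹'
          (B '' {z : E | z ≠ 0 ∧ A (inv' z) ∈ (fun p : ({A 0}ᶜ : Set M) => p.1) '' W}) := by
        ext p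
        constructor
        · rintro ⟨w, hw, hwp⟩
          by_cases hw' : w.1 ∈ (A '' ball 0 1)ᶜ
          · rw [hu1 w hw', hij] at hwp
            obtain ⟨z, hz, hz1, hz2⟩ := hwp
            have hz0 : z ≠ 0 := by
              rintro rfl
              simp at hz
            refine ⟨z, ⟨hz0, w, hw, ?_⟩, hz2.symm⟩
            show w.1 = A (inv' z)
            rw [inv'_unit z hz]
            exact hz1
          · obtain ⟨x, hx0, hx1, hxw⟩ := hin w hw'
            rw [hu2' w x hxw hx1 (hBout _ (one_le_inv' _ hx0 hx1.le))] at hwp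
            have := hji hwp
            refine ⟨inv' x, ⟨inv'_ne x hx0, w, hw, ?_⟩, congrArg Subtype.val this⟩
            show w.1 = A (inv' (inv' x))
            rw [inv'_inv' x hx0]
            exact hxw
        · rintro ⟨z, ⟨hz0, w, hw, hwz⟩, hzp⟩
          have hwz' : w.1 = A (inv' z) := hwz
          have hz1 : 1 ≤ ‖z‖ := by
            by_contra hlt
            push Not at hlt
            apply p.2
            exact ⟨z, mem_ball_zero_iff.2 hlt, hzp⟩
          refine ⟨w, hw, ?_⟩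
          have hb : B (inv' (inv' z)) ∈ (B '' ball 0 1)ᶜ := by
            rw [inv'_inv' z hz0]
            exact hBout z hz1
          rw [hu2 w (inv' z) hwz' (inv'_le_one z hz1) hb]
          congr 1
          apply Subtype.ext
          show B (inv' (inv' z)) = p.1
          rw [inv'_inv' z hz0]
          exact hzp
      rw [this]
      refine IsOpen.preimage continuous_subtype_val (hB.isOpenMap _ ?_)
      have hW' : IsOpen ((fun p : ({A 0}ᶜ : Set M) => p.1) '' W) :=
        (isClosed_singleton.isOpen_compl.isOpenEmbedding_subtypeVal).isOpenMap _ hW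
      have hc : ContinuousOn (fun z : E => A (inv' z)) {z | z ≠ 0} :=
        hA.continuous.comp_continuousOn continuousOn_inv'
      have := hc.isOpen_inter_preimage isOpen_ne hW'
      exact this
  exact IsOpenEmbedding.of_continuous_injective_isOpenMap huc hui huo

end Glue

end Pool.Agent.H823R2
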