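import Mathlib
import Pool.Agent.Helper585.Wk.Defs
import Pool.Agent.H823R2.SumBr

set_option autoImplicit false

/-! From gluing along the boundary of cells to gluing along the inversion, second part. -/

namespace Pool.Agent.H823R2

open Pool.Agent.Helper585.Wk Set Metric Topology

section Glue

variable {E : Type} [NormedAddCommGroup E] [NormedSpace ℝ E] [ProperSpace E]
variable {M N Q : Type} [TopologicalSpace M] [TopologicalSpace N] [TopologicalSpace Q] [T2Space M]
  [T2Space N]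

theorem full (A : E → M) (B : E → N) (hA : IsOpenEmbedding A) (hB : IsOpenEmbedding B)
    (i : ((A '' ball 0 1)ᶜ : Set M) → Q) (j : ((B '' ball 0 1)ᶜ : Set N) → Q)
    (hi : Continuous i) (hj : Continuous j)
    (hopen : ∀ S : Set Q, IsOpen (i ⁻¹' S) → IsOpen (j ⁻¹' S) → IsOpen S)
    (hii : Function.Injective i) (hji : Function.Injective j)
    (hij : ∀ x y, i x = j y ↔ ∃ z : E, ‖z‖ = 1 ∧ x.1 = A z ∧ y.1 = B z)
    (hcov : ∀ q, (∃ x, i x = q) ∨ (∃ y, j y = q)) :
    ∃ u : ({A 0}ᶜ : Set M) → Q, ∃ v : ({B 0}ᶜ : Set N) → Q,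
      IsOpenEmbedding u ∧ IsOpenEmbedding v ∧ range u ∪ range v = univ ∧
      ∀ (p : ({A 0}ᶜ : Set M)) (q : ({B 0}ᶜ : Set N)),
        (u p = v q ↔ ∃ x : E, x ≠ 0 ∧ (p : M) = A x ∧ (q : N) = B ((‖x‖ ^ 2)⁻¹ • x)) := by
  classical
  obtain ⟨u, hu, hu1, hu2⟩ := half A B hA hB i j hi hj hopen hii hji hij
  obtain ⟨v, hv, hv1, hv2⟩ := half B A hB hA j i hj hi (fun S h1 h2 => hopen S h2 h1) hji hii
    (fun x y => by
      rw [eq_comm, hij]
      constructor
      · rintro ⟨z, h1, h2, h3⟩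
        exact ⟨z, h1, h3, h2⟩
      · rintro ⟨z, h1, h2, h3⟩
        exact ⟨z, h1, h3, h2⟩)
  have hBout : ∀ y : E, 1 ≤ ‖y‖ → B y ∈ (B '' ball 0 1)ᶜ := by
    rintro y hy ⟨z, hz, hzy⟩
    rw [hB.injective hzy, mem_ball_zero_iff] at hz
    linarith
  have hAout : ∀ y : E, 1 ≤ ‖y‖ → A y ∈ (A '' ball 0 1)ᶜ := by
    rintro y hy ⟨z, hz, hzy⟩
    rw [hA.injective hzy, mem_ball_zero_iff] at hz
    linarith
  have hneA : ∀ (p : ({A 0}ᶜ : Set M)) (x : E), p.1 = A x → x ≠ 0 := by
    rintro ⟨p, hp⟩ x hx rfl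
    exact hp hx
  have hneB : ∀ (p : ({B 0}ᶜ : Set N)) (x : E), p.1 = B x → x ≠ 0 := by
    rintro ⟨p, hp⟩ x hx rfl
    exact hp hx
  have hinA : ∀ p : ({A 0}ᶜ : Set M), p.1 ∉ (A '' ball 0 1)ᶜ →
      ∃ x : E, x ≠ 0 ∧ ‖x‖ < 1 ∧ p.1 = A x := by
    rintro p hp
    rw [mem_compl_iff, not_not] at hp
    obtain ⟨x, hx, hxp⟩ := hp
    exact ⟨x, hneA p x hxp.symm, mem_ball_zero_iff.1 hx, hxp.symm⟩
  have hinB : ∀ p : ({B 0}ᶜ : Set N), p.1 ∉ (B '' ball 0 1)ᶜ →
      ∃ x : E, x ≠ 0 ∧ ‖x‖ < 1 ∧ p.1 = B x := by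
    rintro p hp
    rw [mem_compl_iff, not_not] at hp
    obtain ⟨x, hx, hxp⟩ := hp
    exact ⟨x, hneB p x hxp.symm, mem_ball_zero_iff.1 hx, hxp.symm⟩
  refine ⟨u, v, hu, hv, ?_, ?_⟩
  · apply eq_univ_of_forall
    intro q
    rcases hcov q with ⟨x, hx⟩ | ⟨y, hy⟩
    · left
      have hp0 : x.1 ∈ ({A 0}ᶜ : Set M) := by
        intro h
        apply x.2
        rw [mem_singleton_iff.1 h]
        exact ⟨0, mem_ball_self one_pos, rfl⟩
      exact ⟨⟨x.1, hp0⟩, (hu1 ⟨x.1, hp0⟩ x.2).trans hx⟩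
    · right
      have hp0 : y.1 ∈ ({B 0}ᶜ : Set N) := by
        intro h
        apply y.2
        rw [mem_singleton_iff.1 h]
        exact ⟨0, mem_ball_self one_pos, rfl⟩
      exact ⟨⟨y.1, hp0⟩, (hv1 ⟨y.1, hp0⟩ y.2).trans hy⟩
  · intro p q
    constructor
    · intro h
      by_cases hp : p.1 ∈ (A '' ball 0 1)ᶜ
      · by_cases hq : q.1 ∈ (B '' ball 0 1)ᶜ
        · rw [hu1 p hp, hv1 q hq, hij] at h
          obtain ⟨z, hz, h1, h2⟩ := h
          refine ⟨z, hneA p z h1, h1, ?_⟩
          show q.1 = B (inv' z)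
          rw [inv'_unit z hz]
          exact h2
        · obtain ⟨y, hy0, hy1, hyq⟩ := hinB q hq
          rw [hu1 p hp, hv2 q y hyq hy1.le (hAout _ (one_le_inv' _ hy0 hy1.le))] at h
          have h1 := congrArg Subtype.val (hii h)
          refine ⟨inv' y, inv'_ne y hy0, h1, ?_⟩
          show q.1 = B (inv' (inv' y))
          rw [inv'_inv' y hy0]
          exact hyq
      · obtain ⟨x, hx0, hx1, hxp⟩ := hinA p hp
        rw [hu2 p x hxp hx1.le (hBout _ (one_le_inv' _ hx0 hx1.le))] at h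
        by_cases hq : q.1 ∈ (B '' ball 0 1)ᶜ
        · rw [hv1 q hq] at h
          have h1 := congrArg Subtype.val (hji h)
          exact ⟨x, hx0, hxp, h1.symm⟩
        · exfalso
          obtain ⟨y, hy0, hy1, hyq⟩ := hinB q hq
          rw [hv2 q y hyq hy1.le (hAout _ (one_le_inv' _ hy0 hy1.le))] at h
          obtain ⟨z, hz, hz1, -⟩ := (hij _ _).1 h.symm
          have := hA.injective hz1
          have h1 := one_lt_inv' y hy0 hy1
          rw [this, hz] at h1
          exact lt_irrefl _ h1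
    · rintro ⟨x, hx0, hp, hq⟩
      have hq' : q.1 = B (inv' x) := hq
      rcases le_total ‖x‖ 1 with h | h
      · have hb := hBout _ (one_le_inv' _ hx0 h)
        rw [hu2 p x hp h hb, hv1 q (by rw [hq']; exact hb)]
        congr 1
        exact Subtype.ext hq'.symm
      · have ha : A (inv' (inv' x)) ∈ (A '' ball 0 1)ᶜ := by
          rw [inv'_inv' x hx0]
          exact hAout x h
        rw [hu1 p (by rw [hp]; exact hAout x h), hv2 q (inv' x) hq' (inv'_le_one x h) ha]
        congr 1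
        apply Subtype.ext
        show p.1 = A (inv' (inv' x))
        rw [inv'_inv' x hx0]
        exact hp

end Glue

section Radial

variable {E : Type} [NormedAddCommGroup E] [NormedSpace ℝ E]

/-- radial compression of the space to a ball of radius `r > 1`, fixing the unit sphere -/
noncomputable def rho (r : ℝ) (x : E) : E := (r / (‖x‖ + (r - 1))) • x

theorem norm_rho (r : ℝ) (hr : 1 < r) (x : E) : ‖rho r x‖ = r * ‖x‖ / (‖x‖ + (r - 1)) := by
  have : 0 < ‖x‖ + (r - 1) := by
    have := norm_nonneg x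
    linarith
  rw [rho, norm_smul, Real.norm_of_nonneg (by positivity)]
  ring

theorem rho_lt (r : ℝ) (hr : 1 < r) (x : E) : ‖rho r x‖ < r := by
  have h0 := norm_nonneg x
  have : 0 < ‖x‖ + (r - 1) := by linarith
  rw [norm_rho r hr, div_lt_iff₀ this]
  nlinarith

theorem rho_unit (r : ℝ) (hr : 1 < r) (x : E) (h : ‖x‖ = 1) : rho r x = x := by
  rw [rho, h]
  have : r / (1 + (r - 1)) = 1 := by
    have : r ≠ 0 := by linarith
    rw [show 1 + (r - 1) = r by ring, div_self this]
  rw [this, one_smul]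

theorem rho_ball (r : ℝ) (hr : 1 < r) (x : E) : ‖rho r x‖ < 1 ↔ ‖x‖ < 1 := by
  have h0 := norm_nonneg x
  have : 0 < ‖x‖ + (r - 1) := by linarith
  rw [norm_rho r hr, div_lt_iff₀ this]
  constructor
  · intro h
    nlinarith
  · intro h
    nlinarith

/-- the radial homeomorphism -/
noncomputable def rhoHomeo (r : ℝ) (hr : 1 < r) : E ≃ₜ ball (0 : E) r where
  toFun x := ⟨rho r x, mem_ball_zero_iff.2 (rho_lt r hr x)⟩
  invFun y := ((r - 1) / (r - ‖y.1‖)) • y.1
  left_inv x := by
    have h0 := norm_nonneg x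
    have h1 : 0 < ‖x‖ + (r - 1) := by linarith
    have h2 : r - 1 ≠ 0 := by linarith
    have h3 : r ≠ 0 := by linarith
    show ((r - 1) / (r - ‖rho r x‖)) • rho r x = x
    rw [norm_rho r hr, rho, smul_smul]
    have : (r - 1) / (r - r * ‖x‖ / (‖x‖ + (r - 1))) * (r / (‖x‖ + (r - 1))) = 1 := by
      have h4 : r - r * ‖x‖ / (‖x‖ + (r - 1)) = r * (r - 1) / (‖x‖ + (r - 1)) := by
        field_simp
        ring
      rw [h4]
      field_simp
    rw [this, one_smul]
  right_inv y := by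
    have hy := mem_ball_zero_iff.1 y.2
    have h0 := norm_nonneg y.1
    have h1 : 0 < r - ‖y.1‖ := by linarith
    have h2 : 0 < r - 1 := by linarith
    have h3 : r ≠ 0 := by linarith
    apply Subtype.ext
    show rho r (((r - 1) / (r - ‖y.1‖)) • y.1) = y.1
    rw [rho, norm_smul, Real.norm_of_nonneg (by positivity), smul_smul]
    have : r / ((r - 1) / (r - ‖y.1‖) * ‖y.1‖ + (r - 1)) * ((r - 1) / (r - ‖y.1‖)) = 1 := by
      have h4 : (r - 1) / (r - ‖y.1‖) * ‖y.1‖ + (r - 1) = r * (r - 1) / (r - ‖y.1‖) := by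
        field_simp
        ring
      rw [h4]
      field_simp
    rw [this, one_smul]
  continuous_toFun := by
    apply Continuous.subtype_mk
    apply Continuous.smul _ continuous_id
    apply Continuous.div continuous_const (by fun_prop)
    intro x
    have h0 := norm_nonneg x
    have h1 : 0 < ‖x‖ + (r - 1) := by linarith
    exact h1.ne'
  continuous_invFun := by
    apply Continuous.smul _ continuous_subtype_val
    apply Continuous.div continuous_const (by fun_prop)
    intro y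
    have hy := mem_ball_zero_iff.1 y.2
    have h1 : 0 < r - ‖y.1‖ := by linarith
    exact h1.ne'

end Radial

section Cone

variable {E : Type} [NormedAddCommGroup E] [NormedSpace ℝ E]

theorem unit_mem (x : E) (h : x ≠ 0) : ‖x‖⁻¹ • x ∈ sphere (0 : E) 1 := by
  rw [mem_sphere_zero_iff_norm, norm_smul, norm_inv, norm_norm]
  exact inv_mul_cancel₀ (norm_ne_zero_iff.2 h)

open Classical in
/-- cone extension of a self-map of the unit sphere -/
noncomputable def cone (f : sphere (0 : E) 1 → sphere (0 : E) 1) (x : E) : E :=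
  if h : x = 0 then 0 else ‖x‖ • (f ⟨‖x‖⁻¹ • x, unit_mem x h⟩).1

theorem cone_zero (f : sphere (0 : E) 1 → sphere (0 : E) 1) : cone f 0 = 0 := by
  simp [cone]

theorem cone_ne (f : sphere (0 : E) 1 → sphere (0 : E) 1) (x : E) (h : x ≠ 0) :
    cone f x = ‖x‖ • (f ⟨‖x‖⁻¹ • x, unit_mem x h⟩).1 := by
  rw [cone, dif_neg h]

theorem norm_cone (f : sphere (0 : E) 1 → sphere (0 : E) 1) (x : E) : ‖cone f x‖ = ‖x‖ := by
  by_cases h : x = 0
  · rw [h, cone_zero]
  · rw [cone_ne f x h, norm_smul, norm_norm, mem_sphere_zero_iff_norm.1 (f _).2, mul_one]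

theorem cone_unit (f : sphere (0 : E) 1 → sphere (0 : E) 1) (x : sphere (0 : E) 1) :
    cone f x.1 = (f x).1 := by
  have h1 : ‖x.1‖ = 1 := mem_sphere_zero_iff_norm.1 x.2
  have h0 : x.1 ≠ 0 := by
    intro h
    rw [h, norm_zero] at h1
    exact zero_ne_one h1
  have h2 : (⟨‖x.1‖⁻¹ • x.1, unit_mem x.1 h0⟩ : sphere (0 : E) 1) = x := by
    apply Subtype.ext
    show ‖x.1‖⁻¹ • x.1 = x.1
    rw [h1, inv_one, one_smul]
  rw [cone_ne f x.1 h0, h2, h1, one_smul]

theorem cone_cone (f g : sphere (0 : E) 1 → sphere (0 : E) 1) (hfg : ∀ x, f (g x) = x) (x : E) :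
    cone f (cone g x) = x := by
  by_cases h : x = 0
  · rw [h, cone_zero, cone_zero]
  · have h1 : cone g x ≠ 0 := by
      rw [← norm_ne_zero_iff, norm_cone]
      exact norm_ne_zero_iff.2 h
    have h2 : (⟨‖cone g x‖⁻¹ • cone g x, unit_mem _ h1⟩ : sphere (0 : E) 1) =
        g ⟨‖x‖⁻¹ • x, unit_mem x h⟩ := by
      apply Subtype.ext
      show ‖cone g x‖⁻¹ • cone g x = _
      rw [norm_cone, cone_ne g x h, smul_smul, inv_mul_cancel₀ (norm_ne_zero_iff.2 h), one_smul]
    rw [cone_ne f _ h1, h2, hfg, norm_cone]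
    show ‖x‖ • (‖x‖⁻¹ • x) = x
    rw [smul_smul, mul_inv_cancel₀ (norm_ne_zero_iff.2 h), one_smul]

theorem continuous_cone (f : sphere (0 : E) 1 → sphere (0 : E) 1) (hf : Continuous f) :
    Continuous (cone f) := by
  rw [continuous_iff_continuousAt]
  intro x
  by_cases h : x = 0
  · subst h
    rw [ContinuousAt, cone_zero, tendsto_zero_iff_norm_tendsto_zero]
    have : (fun x => ‖cone f x‖) = fun x : E => ‖x‖ := by
      funext x
      exact norm_cone f x
    rw [this]
    have := (continuous_norm (E := E)).tendsto 0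
    rwa [norm_zero] at this
  · have ho : IsOpen {y : E | y ≠ 0} := isOpen_ne
    have : ContinuousOn (cone f) {y : E | y ≠ 0} := by
      rw [continuousOn_iff_continuous_domRestrict]
      have : ({y : E | y ≠ 0}).domRestrict (cone f) =
          fun y => ‖y.1‖ • (f ⟨‖y.1‖⁻¹ • y.1, unit_mem y.1 y.2⟩).1 := by
        funext y
        exact cone_ne f y.1 y.2
      rw [this]
      apply Continuous.smul (by fun_prop)
      apply continuous_subtype_val.comp (hf.comp _)
      apply Continuous.subtype_mk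
      apply Continuous.smul _ continuous_subtype_val
      apply Continuous.inv₀ (by fun_prop)
      intro y
      exact norm_ne_zero_iff.2 y.2
    exact this.continuousAt (ho.mem_nhds h)

/-- cone extension of a self-homeomorphism of the unit sphere -/
noncomputable def coneHomeo (f : sphere (0 : E) 1 ≃ₜ sphere (0 : E) 1) : E ≃ₜ E where
  toFun := cone f
  invFun := cone f.symm
  left_inv x := cone_cone _ _ (fun x => f.symm_apply_apply x) x
  right_inv x := cone_cone _ _ (fun x => f.apply_symm_apply x) x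
  continuous_toFun := continuous_cone _ f.continuous
  continuous_invFun := continuous_cone _ f.symm.continuous

end Cone

end Pool.Agent.H823R2
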