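import Mathlib
import Pool.Agent.Helper585.Wk.Defs
import Pool.Agent.H823R2.SumFull
import Pool.Agent.H823R2.GeoCx

set_option autoImplicit false

/-! Manifold sums along cells are connected sums along the inversion. -/

namespace Pool.Agent.H823R2

open Pool.Agent.Helper585.Wk Set Metric Topology

/-- the space in which the cells live -/
abbrev Eu (d : ℕ) := EuclideanSpace ℝ (Fin d)

theorem cell_radius {d : ℕ} {M : Type} [TopologicalSpace M] (a : Cell d M) :
    ∃ r : ℝ, 1 < r ∧ ball (0 : Eu d) r ⊆ a.U := by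
  obtain ⟨δ, hδ, h⟩ := (isCompact_closedBall (0 : Eu d) 1).exists_thickening_subset_open
    a.isOpen a.ball_subset
  refine ⟨1 + δ, by linarith, subset_trans ?_ h⟩
  intro x hx
  rw [mem_ball_zero_iff] at hx
  rw [mem_thickening_iff]
  rcases le_or_gt ‖x‖ 1 with h1 | h1
  · exact ⟨x, mem_closedBall_zero_iff.2 h1, by rw [dist_self]; exact hδ⟩
  · have h0 : (0 : ℝ) < ‖x‖ := by linarith
    refine ⟨‖x‖⁻¹ • x, ?_, ?_⟩
    · rw [mem_closedBall_zero_iff, norm_smul, norm_inv, norm_norm, inv_mul_cancel₀ h0.ne']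
    · rw [dist_eq_norm]
      have : x - ‖x‖⁻¹ • x = (1 - ‖x‖⁻¹) • x := by rw [sub_smul, one_smul]
      rw [this, norm_smul, Real.norm_of_nonneg]
      · rw [sub_mul, inv_mul_cancel₀ h0.ne']
        linarith
      · rw [sub_nonneg]
        exact inv_le_one_of_one_le₀ h1.le

theorem cell_ext {d : ℕ} {M : Type} [TopologicalSpace M] (a : Cell d M) (C : Eu d ≃ₜ Eu d)
    (hC : ∀ x, ‖C x‖ = ‖x‖) :
    ∃ A : Eu d → M, IsOpenEmbedding A ∧
      (∀ (x : Eu d) (hx : C x ∈ a.U), ‖x‖ = 1 → A x = a.toFun ⟨C x, hx⟩) ∧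
      A '' ball 0 1 = a.inter := by
  obtain ⟨r, hr, hrU⟩ := cell_radius a
  let e : Eu d ≃ₜ ball (0 : Eu d) r := C.trans (rhoHomeo r hr)
  have he : ∀ x, (e x).1 = rho r (C x) := fun x => rfl
  refine ⟨fun x => a.toFun (inclusion hrU (e x)), ?_, ?_, ?_⟩
  · have h1 : IsOpenEmbedding (inclusion hrU) :=
      IsOpenEmbedding.inclusion hrU (isOpen_ball.preimage continuous_subtype_val)
    have h2 : IsOpenEmbedding (inclusion hrU ∘ e) := h1.comp e.isOpenEmbedding
    exact a.emb.comp h2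
  · intro x hx h1
    show a.toFun (inclusion hrU (e x)) = _
    congr 1
    apply Subtype.ext
    show (e x).1 = C x
    rw [he, rho_unit r hr _ (by rw [hC, h1])]
  · ext p
    constructor
    · rintro ⟨x, hx, rfl⟩
      refine ⟨inclusion hrU (e x), ?_, rfl⟩
      show (e x).1 ∈ ball 0 1
      rw [mem_ball_zero_iff, he, rho_ball r hr, hC]
      exact mem_ball_zero_iff.1 hx
    · rintro ⟨w, hw, rfl⟩
      have hw' : ‖w.1‖ < 1 := mem_ball_zero_iff.1 hw
      have hwr : w.1 ∈ ball (0 : Eu d) r := mem_ball_zero_iff.2 (by linarith)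
      refine ⟨e.symm ⟨w.1, hwr⟩, ?_, ?_⟩
      · rw [mem_ball_zero_iff, ← hC, ← rho_ball r hr, ← he, e.apply_symm_apply]
        exact hw'
      · show a.toFun (inclusion hrU (e _)) = _
        rw [e.apply_symm_apply]

theorem sphere_sub {d : ℕ} {M : Type} [TopologicalSpace M] (a : Cell d M) :
    sphere (0 : Eu d) 1 ⊆ a.U :=
  subset_trans sphere_subset_closedBall a.ball_subset

/-- the parametrisation of the boundary sphere of a cell -/
def bdryMap {d : ℕ} {M : Type} [TopologicalSpace M] (a : Cell d M)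
    (z : sphere (0 : Eu d) 1) : M := a.toFun ⟨z.1, sphere_sub a z.2⟩

theorem bdryMap_emb {d : ℕ} {M : Type} [TopologicalSpace M] (a : Cell d M) :
    IsEmbedding (bdryMap a) := by
  have h1 : IsEmbedding (inclusion (sphere_sub a)) := IsEmbedding.inclusion _
  exact a.emb.isEmbedding.comp h1

theorem range_bdryMap {d : ℕ} {M : Type} [TopologicalSpace M] (a : Cell d M) :
    range (bdryMap a) = a.bdry := by
  ext p
  constructor
  · rintro ⟨z, hz⟩
    have h1 : (⟨z.1, sphere_sub a z.2⟩ : a.U) ∈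
        {u : a.U | u.1 ∈ sphere (0 : EuclideanSpace ℝ (Fin d)) 1} := z.2
    exact ⟨⟨z.1, sphere_sub a z.2⟩, h1, hz⟩
  · rintro ⟨w, hw, hp⟩
    have hw' : w.1 ∈ sphere (0 : Eu d) 1 := hw
    exact ⟨⟨w.1, hw'⟩, hp⟩

/-- the boundary sphere of a cell, parametrised -/
noncomputable def bdryHomeo {d : ℕ} {M : Type} [TopologicalSpace M] (a : Cell d M) :
    sphere (0 : Eu d) 1 ≃ₜ a.bdry :=
  (bdryMap_emb a).toHomeomorph.trans (Homeomorph.setCongr (range_bdryMap a))

theorem bdryHomeo_apply {d : ℕ} {M : Type} [TopologicalSpace M] (a : Cell d M)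
    (z : sphere (0 : Eu d) 1) (hz : z.1 ∈ a.U) : (bdryHomeo a z).1 = a.toFun ⟨z.1, hz⟩ := rfl

section Quo

variable {d : ℕ} {M N : Type} [TopologicalSpace M] [TopologicalSpace N]
  (a : Cell d M) (b : Cell d N) (φ : a.bdry ≃ₜ b.bdry)

/-- the class of a point -/
def cls : ((a.inter)ᶜ : Set M) ⊕ ((b.inter)ᶜ : Set N) →
    Set (((a.inter)ᶜ : Set M) ⊕ ((b.inter)ᶜ : Set N))
  | Sum.inl x => {Sum.inl x} ∪ {w | ∃ (z : a.bdry) (y : ((b.inter)ᶜ : Set N)),
      w = Sum.inr y ∧ x.1 = z.1 ∧ y.1 = (φ z).1}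
  | Sum.inr y => {Sum.inr y} ∪ {w | ∃ (z : a.bdry) (x : ((a.inter)ᶜ : Set M)),
      w = Sum.inl x ∧ x.1 = z.1 ∧ y.1 = (φ z).1}

theorem cls_rel (p q : ((a.inter)ᶜ : Set M) ⊕ ((b.inter)ᶜ : Set N)) (h : GlueRel a b φ p q) :
    cls a b φ p = cls a b φ q := by
  obtain ⟨x, hx, hy⟩ := h
  ext w
  constructor
  · rintro (h | ⟨z, y, hw, h1, h2⟩)
    · right
      rw [mem_singleton_iff] at h
      exact ⟨x, ⟨x.1, hx⟩, h, rfl, rfl⟩
    · left
      have : x = z := Subtype.ext h1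
      subst this
      rw [mem_singleton_iff, hw]
      congr 1
      exact Subtype.ext h2
  · rintro (h | ⟨z, y, hw, h1, h2⟩)
    · right
      rw [mem_singleton_iff] at h
      exact ⟨x, ⟨(φ x).1, hy⟩, h, rfl, rfl⟩
    · left
      have h2' : φ x = φ z := Subtype.ext h2
      have : x = z := φ.injective h2'
      subst this
      rw [mem_singleton_iff, hw]
      congr 1
      exact Subtype.ext h1

/-- the class map on the quotient -/
def clsQ : Quot (GlueRel a b φ) → Set (((a.inter)ᶜ : Set M) ⊕ ((b.inter)ᶜ : Set N)) :=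
  Quot.lift (cls a b φ) (cls_rel a b φ)

theorem inl_inj (x y : ((a.inter)ᶜ : Set M))
    (h : Quot.mk (GlueRel a b φ) (Sum.inl x) = Quot.mk _ (Sum.inl y)) : x = y := by
  have h1 : cls a b φ (Sum.inl x) = cls a b φ (Sum.inl y) := congrArg (clsQ a b φ) h
  have h2 : (Sum.inl y : ((a.inter)ᶜ : Set M) ⊕ ((b.inter)ᶜ : Set N)) ∈
      cls a b φ (Sum.inl x) := by
    rw [h1]
    exact Or.inl rfl
  rcases h2 with h2 | ⟨z, w, hw, -, -⟩
  · exact (Sum.inl_injective (mem_singleton_iff.1 h2)).symm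
  · exact absurd hw (by simp)

theorem inr_inj (x y : ((b.inter)ᶜ : Set N))
    (h : Quot.mk (GlueRel a b φ) (Sum.inr x) = Quot.mk _ (Sum.inr y)) : x = y := by
  have h1 : cls a b φ (Sum.inr x) = cls a b φ (Sum.inr y) := congrArg (clsQ a b φ) h
  have h2 : (Sum.inr y : ((a.inter)ᶜ : Set M) ⊕ ((b.inter)ᶜ : Set N)) ∈
      cls a b φ (Sum.inr x) := by
    rw [h1]
    exact Or.inl rfl
  rcases h2 with h2 | ⟨z, w, hw, -, -⟩
  · exact (Sum.inr_injective (mem_singleton_iff.1 h2)).symm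
  · exact absurd hw (by simp)

theorem inl_inr (x : ((a.inter)ᶜ : Set M)) (y : ((b.inter)ᶜ : Set N)) :
    Quot.mk (GlueRel a b φ) (Sum.inl x) = Quot.mk _ (Sum.inr y) ↔
      ∃ z : a.bdry, x.1 = z.1 ∧ y.1 = (φ z).1 := by
  constructor
  · intro h
    have h1 : cls a b φ (Sum.inl x) = cls a b φ (Sum.inr y) := congrArg (clsQ a b φ) h
    have h2 : (Sum.inr y : ((a.inter)ᶜ : Set M) ⊕ ((b.inter)ᶜ : Set N)) ∈
        cls a b φ (Sum.inl x) := by
      rw [h1]
      exact Or.inl rfl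
    rcases h2 with h2 | ⟨z, w, hw, h3, h4⟩
    · exact absurd (mem_singleton_iff.1 h2) (by simp)
    · refine ⟨z, h3, ?_⟩
      rw [Sum.inr_injective hw]
      exact h4
  · rintro ⟨z, h1, h2⟩
    apply Quot.sound
    have hx : z.1 ∉ a.inter := by
      rw [← h1]
      exact x.2
    have hy : (φ z).1 ∉ b.inter := by
      rw [← h2]
      exact y.2
    have h := GlueRel.mk (a := a) (b := b) (φ := φ) z hx hy
    have e1 : x = ⟨z.1, hx⟩ := Subtype.ext h1
    have e2 : y = ⟨(φ z).1, hy⟩ := Subtype.ext h2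
    rw [e1, e2]
    exact h

end Quo

/-- a manifold sum is a connected sum in the sense of the frozen statement -/
theorem sum_to_conn {d : ℕ} {M N P : Type} [TopologicalSpace M] [TopologicalSpace N]
    [TopologicalSpace P] [T2Space M] [T2Space N] (h : IsManifoldSum d M N P) :
    ∃ a : Eu d → M, ∃ b : Eu d → N,
    ∃ u : ({a 0}ᶜ : Set M) → P, ∃ v : ({b 0}ᶜ : Set N) → P,
      Topology.IsOpenEmbedding a ∧ Topology.IsOpenEmbedding b ∧
      Topology.IsOpenEmbedding u ∧ Topology.IsOpenEmbedding v ∧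
      Set.range u ∪ Set.range v = Set.univ ∧
      ∀ (p : ({a 0}ᶜ : Set M)) (q : ({b 0}ᶜ : Set N)),
        (u p = v q ↔ ∃ x : Eu d, x ≠ 0 ∧ (p : M) = a x ∧
          (q : N) = b ((‖x‖ ^ 2)⁻¹ • x)) := by
  obtain ⟨a, b, φ, ⟨e⟩⟩ := h
  -- the gluing map as a homeomorphism of the unit sphere
  let η : sphere (0 : Eu d) 1 ≃ₜ sphere (0 : Eu d) 1 :=
    ((bdryHomeo a).trans φ).trans (bdryHomeo b).symm
  have hη : ∀ z, bdryHomeo b (η z) = φ (bdryHomeo a z) := fun z =>
    (bdryHomeo b).apply_symm_apply _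
  obtain ⟨A, hA, hA1, hA2⟩ := cell_ext a (Homeomorph.refl _) (fun x => rfl)
  obtain ⟨B, hB, hB1, hB2⟩ := cell_ext b (coneHomeo η) (fun x => norm_cone _ x)
  -- boundary values
  have hAz : ∀ z : sphere (0 : Eu d) 1, A z.1 = (bdryHomeo a z).1 := by
    intro z
    have hz : z.1 ∈ a.U := a.ball_subset (sphere_subset_closedBall z.2)
    rw [bdryHomeo_apply a z hz]
    exact hA1 z.1 hz (mem_sphere_zero_iff_norm.1 z.2)
  have hBz : ∀ z : sphere (0 : Eu d) 1, B z.1 = (φ (bdryHomeo a z)).1 := by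
    intro z
    rw [← hη z]
    have hz : (η z).1 ∈ b.U := b.ball_subset (sphere_subset_closedBall (η z).2)
    rw [bdryHomeo_apply b _ hz]
    have h1 : coneHomeo η z.1 = (η z).1 := cone_unit _ z
    have h2 : coneHomeo η z.1 ∈ b.U := by
      rw [h1]
      exact hz
    rw [hB1 z.1 h2 (mem_sphere_zero_iff_norm.1 z.2)]
    congr 1
    exact Subtype.ext h1
  let i : ((A '' ball 0 1)ᶜ : Set M) → Quot (GlueRel a b φ) := fun x =>
    Quot.mk _ (Sum.inl ⟨x.1, by rw [← hA2]; exact x.2⟩)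
  let j : ((B '' ball 0 1)ᶜ : Set N) → Quot (GlueRel a b φ) := fun y =>
    Quot.mk _ (Sum.inr ⟨y.1, by rw [← hB2]; exact y.2⟩)
  have hi : Continuous i :=
    continuous_quot_mk.comp (continuous_inl.comp (Continuous.subtype_mk continuous_subtype_val _))
  have hj : Continuous j :=
    continuous_quot_mk.comp (continuous_inr.comp (Continuous.subtype_mk continuous_subtype_val _))
  have hopen : ∀ S : Set (Quot (GlueRel a b φ)), IsOpen (i ⁻¹' S) → IsOpen (j ⁻¹' S) →
      IsOpen S := by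
    intro S h1 h2
    rw [← isQuotientMap_quot_mk.isOpen_preimage, isOpen_sum_iff]
    constructor
    · let k : ((a.inter)ᶜ : Set M) → ((A '' ball 0 1)ᶜ : Set M) := fun x =>
        ⟨x.1, by rw [hA2]; exact x.2⟩
      have hk : Continuous k := Continuous.subtype_mk continuous_subtype_val _
      exact h1.preimage hk
    · let k : ((b.inter)ᶜ : Set N) → ((B '' ball 0 1)ᶜ : Set N) := fun x =>
        ⟨x.1, by rw [hB2]; exact x.2⟩
      have hk : Continuous k := Continuous.subtype_mk continuous_subtype_val _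
      exact h2.preimage hk
  have hii : Function.Injective i := by
    intro x y hxy
    have := inl_inj a b φ _ _ hxy
    exact Subtype.ext (congrArg Subtype.val this :)
  have hji : Function.Injective j := by
    intro x y hxy
    have := inr_inj a b φ _ _ hxy
    exact Subtype.ext (congrArg Subtype.val this :)
  have hij : ∀ x y, i x = j y ↔ ∃ z : Eu d, ‖z‖ = 1 ∧ x.1 = A z ∧ y.1 = B z := by
    intro x y
    show Quot.mk _ (Sum.inl _) = Quot.mk _ (Sum.inr _) ↔ _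
    rw [inl_inr]
    constructor
    · rintro ⟨w, h1, h2⟩
      refine ⟨((bdryHomeo a).symm w).1, mem_sphere_zero_iff_norm.1 ((bdryHomeo a).symm w).2,
        ?_, ?_⟩
      · rw [hAz, (bdryHomeo a).apply_symm_apply]
        exact h1
      · rw [hBz, (bdryHomeo a).apply_symm_apply]
        exact h2
    · rintro ⟨z, hz, h1, h2⟩
      refine ⟨bdryHomeo a ⟨z, mem_sphere_zero_iff_norm.2 hz⟩, ?_, ?_⟩
      · rw [← hAz]
        exact h1
      · rw [← hBz]
        exact h2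
  have hcov : ∀ q, (∃ x, i x = q) ∨ (∃ y, j y = q) := by
    intro q
    induction q using Quot.ind with
    | mk w =>
      rcases w with x | y
      · left
        exact ⟨⟨x.1, by rw [hA2]; exact x.2⟩, rfl⟩
      · right
        exact ⟨⟨y.1, by rw [hB2]; exact y.2⟩, rfl⟩
  obtain ⟨u, v, hu, hv, huv, huq⟩ := full A B hA hB i j hi hj hopen hii hji hij hcov
  refine ⟨A, B, fun p => e.symm (u p), fun q => e.symm (v q), hA, hB,
    e.symm.isOpenEmbedding.comp hu, e.symm.isOpenEmbedding.comp hv, ?_, ?_⟩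
  · apply eq_univ_of_forall
    intro p
    have : e p ∈ range u ∪ range v := by
      rw [huv]
      exact mem_univ _
    rcases this with ⟨x, hx⟩ | ⟨x, hx⟩
    · left
      exact ⟨x, by show e.symm (u x) = p; rw [hx, e.symm_apply_apply]⟩
    · right
      exact ⟨x, by show e.symm (v x) = p; rw [hx, e.symm_apply_apply]⟩
  · intro p q
    rw [← huq p q]
    exact e.symm.injective.eq_iff

/-- the values of `f_1 - (d+1) f_0` over the geometric triangulations -/
theorem gamma_sInf {d : ℕ} {M : Type} [TopologicalSpace M] {g : ℤ} (hg : IsGamma d M g) :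
    {z : ℤ | ∃ n : ℕ, ∃ K : Geometry.SimplicialComplex ℝ (EuclideanSpace ℝ (Fin n)),
      K.faces.Finite ∧ Nonempty (K.space ≃ₜ M) ∧
      z = ((Set.ncard {s ∈ K.faces | s.card = 2} : ℕ) : ℤ)
        - ((d : ℤ) + 1) * ((Set.ncard {s ∈ K.faces | s.card = 1} : ℕ) : ℤ)}.Nonempty ∧
    sInf {z : ℤ | ∃ n : ℕ, ∃ K : Geometry.SimplicialComplex ℝ (EuclideanSpace ℝ (Fin n)),
      K.faces.Finite ∧ Nonempty (K.space ≃ₜ M) ∧
      z = ((Set.ncard {s ∈ K.faces | s.card = 2} : ℕ) : ℤ)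
        - ((d : ℤ) + 1) * ((Set.ncard {s ∈ K.faces | s.card = 1} : ℕ) : ℤ)} = g := by
  have key : {z : ℤ | ∃ n : ℕ, ∃ K : Geometry.SimplicialComplex ℝ (EuclideanSpace ℝ (Fin n)),
      K.faces.Finite ∧ Nonempty (K.space ≃ₜ M) ∧
      z = ((Set.ncard {s ∈ K.faces | s.card = 2} : ℕ) : ℤ)
        - ((d : ℤ) + 1) * ((Set.ncard {s ∈ K.faces | s.card = 1} : ℕ) : ℤ)} =
      {z : ℤ | ∃ (n : ℕ) (L : Cx n), IsTriangulation M L ∧
        z = (L.f 1 : ℤ) - ((d : ℤ) + 1) * (L.f 0 : ℤ)} := by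
    ext z
    constructor
    · rintro ⟨n, K, hK, ⟨e⟩, hz⟩
      obtain ⟨m, L, ⟨e'⟩, hf⟩ := geo_to_cx K hK
      refine ⟨m, L, ⟨e'.trans e⟩, ?_⟩
      rw [← hf 1, ← hf 0]
      exact hz
    · rintro ⟨n, L, ⟨e⟩, hz⟩
      obtain ⟨K, hK, ⟨e'⟩, hf⟩ := cx_to_geo L
      refine ⟨n, K, hK, ⟨e'.symm.trans e⟩, ?_⟩
      rw [← hf 1, ← hf 0] at hz
      exact hz
  rw [key]
  have hadm : ∀ z ∈ {z : ℤ | ∃ (n : ℕ) (L : Cx n), IsTriangulation M L ∧
        z = (L.f 1 : ℤ) - ((d : ℤ) + 1) * (L.f 0 : ℤ)}, g ≤ z := by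
    rintro z ⟨n, L, hL, rfl⟩
    have := hg.1 n L hL
    linarith
  have hne : {z : ℤ | ∃ (n : ℕ) (L : Cx n), IsTriangulation M L ∧
        z = (L.f 1 : ℤ) - ((d : ℤ) + 1) * (L.f 0 : ℤ)}.Nonempty := by
    by_contra hemp
    have : Adm d M (g + 1) := by
      intro n K hK
      exact absurd ⟨_, n, K, hK, rfl⟩ hemp
    have h2 : g + 1 ≤ g := hg.2 this
    omega
  have hbdd : BddBelow {z : ℤ | ∃ (n : ℕ) (L : Cx n), IsTriangulation M L ∧
        z = (L.f 1 : ℤ) - ((d : ℤ) + 1) * (L.f 0 : ℤ)} := ⟨g, hadm⟩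
  refine ⟨hne, le_antisymm ?_ (le_csInf hne hadm)⟩
  apply hg.2
  intro n K hK
  have := csInf_le hbdd ⟨n, K, hK, rfl⟩
  linarith

end Pool.Agent.H823R2
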