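import Mathlib
import Pool.Agent.Results.MP_07c156_gt.NotAdditive
import Pool.Agent.H823R2.CellBr

set_option autoImplicit false

namespace Pool.Agent.H823R2

open Pool.Agent.Helper585.Wk Set Metric Topology

/-- the charted space structure of a closed manifold -/
noncomputable def chartsOf {d : ℕ} {M : Type} [TopologicalSpace M] (h : ClosedManifold d M) :
    ChartedSpace (EuclideanSpace ℝ (Fin d)) M where
  atlas := univ
  chartAt x := (h.charts x).choose
  mem_chart_source x := (h.charts x).choose_spec
  chart_mem_atlas _ := mem_univ _

end Pool.Agent.H823R2
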