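import Mathlib
import Pool.Agent.H922R2.OPC.Stubs

/-!
# KER: the kernel of the restriction to the curve
-/

set_option autoImplicit false

open MvPolynomial

namespace Pool.Agent.H823R2.OPCKER

open Pool.Agent.H922R2.OPC

private theorem root_const {k K : Type} [Field k] [IsAlgClosed k] [Field K] [Algebra k K] (z : K)
    (hz : IsIntegral k z) : ∃ c : k, algebraMap k K c = z := by
  have h1 := IsAlgClosed.degree_eq_one_of_irreducible k (minpoly.irreducible hz)
  exact minpoly.mem_range_of_degree_eq_one k z h1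

private theorem alg_C (k A : Type) [Field k] [CommRing A] [Algebra k A] (c : k) :
    algebraMap k (LaurentSeries A) c = HahnSeries.C (algebraMap k A c) := by
  rw [HahnSeries.algebraMap_apply', PowerSeries.algebraMap_apply, HahnSeries.ofPowerSeries_C]

private theorem sp_alg (k : Type) [Field k] (c : k) :
    sp 0 (algebraMap k (L k) c) = algebraMap k (LaurentSeries k) c := by
  rw [alg_C, alg_C]
  ext i
  simp only [sp, HahnSeries.C_apply]
  rw [HahnSeries.map_coeff, HahnSeries.coeff_single, HahnSeries.coeff_single]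
  by_cases h : i = 0
  · simp [h]
  · simp [h]

theorem ker (k : Type) [Field k] [IsAlgClosed k] [CharZero k] : S_KER k := by
  intro hspr hmon D H1 H2 H3 H4 h hdiv
  by_contra hnd
  obtain ⟨R0, hR0⟩ := hspr 0
  let σ : B k →ₐ[k] LaurentSeries k :=
    { toRingHom := R0.comp D.e₁.toRingHom
      commutes' := by
        intro c
        change R0 (D.e₁ (algebraMap k (B k) c)) = _
        rw [AlgHom.commutes, hR0, sp_alg] }
  have hσ : ∀ g, σ g = sp 0 (D.e₁ g) := fun g => hR0 _
  have hf₁ : ∀ g, D.f₁ ∣ g → σ g = 0 := by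
    intro g hg
    rw [hσ, H1]
    simpa using hg
  have hF0 : D.F (X 0) = D.P := by
    simp [TC.F, sb]
  have hF1 : D.F (X 1) = D.Q := by
    simp [TC.F, sb]
  have hFf : σ (D.F D.f₂) = 0 := by
    apply hf₁
    have := D.hr
    exact ⟨D.r, this⟩
  have hF2 : sp 0 (D.e₂ h) ≠ 0 := by
    intro h0
    rw [H2] at h0
    exact hnd (by simpa using h0)
  obtain ⟨a, ha, u, v, huv⟩ := H3 h hF2
  have hP : Polynomial.aeval (σ D.P) a = 0 := by
    have h1 := congrArg (fun g => σ (D.F g)) huv
    simp only [map_add, map_mul, map_sub] at h1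
    rw [hf₁ _ hdiv, hFf] at h1
    rw [← Polynomial.aeval_algHom_apply, ← Polynomial.aeval_algHom_apply, hF0] at h1
    rw [h1]
    simp
  have hPi : IsIntegral k (σ D.P) := by
    rw [← isAlgebraic_iff_isIntegral]
    exact ⟨a, ha, hP⟩
  obtain ⟨c, hc⟩ := root_const _ hPi
  obtain ⟨b, hb⟩ := hmon _ _ _ _ D.h₂
  have hQi : IsIntegral k (σ D.Q) := by
    refine ⟨Polynomial.X ^ D.n₂ + ∑ j ∈ Finset.range D.n₂,
      Polynomial.C ((b j).eval c) * Polynomial.X ^ j, ?_, ?_⟩
    · apply Polynomial.monic_X_pow_add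
      rw [Finset.sum_range]
      exact Polynomial.degree_sum_fin_lt _
    · have h1 := hFf
      rw [hb] at h1
      simp only [map_add, map_pow, map_sum, map_mul, hF1] at h1
      rw [← Polynomial.aeval_def]
      simp only [map_add, map_pow, map_sum, map_mul, Polynomial.aeval_X, Polynomial.aeval_C]
      rw [← h1]
      congr 1
      refine Finset.sum_congr rfl fun j _ => ?_
      congr 1
      rw [← Polynomial.aeval_algHom_apply, ← Polynomial.aeval_algHom_apply, hF0, ← hc,
        Polynomial.aeval_algebraMap_apply_eq_algebraMap_eval]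
  obtain ⟨d, hd⟩ := root_const _ hQi
  refine H4 c d ⟨?_, ?_⟩
  · rw [← hσ, ← hc, alg_C]
    rfl
  · rw [← hσ, ← hd, alg_C]
    rfl

end Pool.Agent.H823R2.OPCKER
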