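import Pool.Agent.H306R2.RG.Defs
import Pool.Agent.H306R2.RG.StubsC

set_option autoImplicit false

/-! Project RG, task CC3: the functional equation of the theta function, both parities. -/

namespace Pool.Agent.H823R2.RGCC3

open Finset Filter Topology MeasureTheory
open Pool.Agent.H306R2.RZ Pool.Agent.H306R2.RG
open Pool.Agent.H306R2.RG.StubsC (CC1 CC2)

noncomputable section

/-- the weight -/
def hh (a : ℕ) (q y : ℝ) (n : ℝ) : ℝ := n ^ a * Real.exp (-(Real.pi * n ^ 2 * y / q))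

/-- sum over a residue class -/
def HH (a : ℕ) (q : ℕ) (y : ℝ) (b : ℕ) : ℝ := ∑' m : ℕ, hh a q y ((q * m + b : ℕ) : ℝ)

/-- abstract theta function -/
def tt (a : ℕ) (q : ℕ) (c : ℕ → ℝ) (y : ℝ) : ℝ := ∑' n : ℕ, c (n + 1) * hh a q y ((n : ℝ) + 1)

lemma summable_hh0 {q : ℕ} (hq : 0 < q) {y : ℝ} (hy : 0 < y) (c : ℝ) :
    Summable fun m : ℤ => hh 0 q y (q * m + c) := by
  have hqy : 0 < (q : ℝ) * y := by positivity
  have h := (HurwitzZeta.hasSum_int_evenKernel (c / q) hqy).summable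
  refine h.congr fun m => ?_
  unfold hh
  rw [pow_zero, one_mul]
  congr 1
  have : (q : ℝ) ≠ 0 := by positivity
  field_simp

lemma summable_hh1 {q : ℕ} (hq : 0 < q) {y : ℝ} (hy : 0 < y) (c : ℝ) :
    Summable fun m : ℤ => hh 1 q y (q * m + c) := by
  have hqy : 0 < (q : ℝ) * y := by positivity
  have h := ((HurwitzZeta.hasSum_int_oddKernel (c / q) hqy).summable).mul_left (q : ℝ)
  refine h.congr fun m => ?_
  unfold hh
  have hq' : (q : ℝ) ≠ 0 := by positivity
  have e1 : -Real.pi * ((m : ℝ) + c / q) ^ 2 * (q * y) = -(Real.pi * (q * m + c) ^ 2 * y / q) := by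
    field_simp
  rw [e1, pow_one]
  field_simp

lemma summable_hh_nat {a : ℕ} (ha : a = 0 ∨ a = 1) {q : ℕ} (hq : 0 < q) {y : ℝ} (hy : 0 < y)
    (b : ℕ) : Summable fun m : ℕ => hh a q y ((q * m + b : ℕ) : ℝ) := by
  have h0 : Summable fun m : ℤ => hh a q y (q * m + b) := by
    rcases ha with rfl | rfl
    · exact summable_hh0 hq hy _
    · exact summable_hh1 hq hy _
  have h := h0.comp_injective (i := fun m : ℕ => (m : ℤ)) Nat.cast_injective
  refine h.congr fun m => ?_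
  simp only [Function.comp_apply]
  push_cast
  rfl

/-- the even kernel as a sum over two residue classes -/
lemma evenKernel_eq {q : ℕ} (hq : 0 < q) {y : ℝ} (hy : 0 < y) (b : ℕ) (hb : b ≤ q) :
    HurwitzZeta.evenKernel (((b : ℝ) / q : ℝ) : UnitAddCircle) (q * y) =
      HH 0 q y b + HH 0 q y (q - b) := by
  have hqy : 0 < (q : ℝ) * y := by positivity
  have hq' : (q : ℝ) ≠ 0 := by positivity
  have h := HurwitzZeta.hasSum_int_evenKernel ((b : ℝ) / q) hqy
  have h1 : HasSum (fun m : ℕ => Real.exp (-Real.pi * (((m : ℤ) : ℝ) + (b : ℝ) / q) ^ 2 * (q * y)))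
      (HH 0 q y b) := by
    have h2 := (summable_hh_nat (Or.inl rfl) hq hy b).hasSum
    have h3 : (fun m : ℕ => Real.exp (-Real.pi * (((m : ℤ) : ℝ) + (b : ℝ) / q) ^ 2 * (q * y))) =
        fun m : ℕ => hh 0 q y ((q * m + b : ℕ) : ℝ) := by
      funext m
      unfold hh
      rw [pow_zero, one_mul]
      congr 1
      push_cast
      field_simp
    rw [h3]
    exact h2
  have h2 : HasSum (fun m : ℕ => Real.exp (-Real.pi * (((-((m : ℤ) + 1) : ℤ) : ℝ) +
      (b : ℝ) / q) ^ 2 * (q * y))) (HH 0 q y (q - b)) := by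
    have h2 := (summable_hh_nat (Or.inl rfl) hq hy (q - b)).hasSum
    have h3 : (fun m : ℕ => Real.exp (-Real.pi * (((-((m : ℤ) + 1) : ℤ) : ℝ) +
        (b : ℝ) / q) ^ 2 * (q * y))) = fun m : ℕ => hh 0 q y ((q * m + (q - b) : ℕ) : ℝ) := by
      funext m
      unfold hh
      rw [pow_zero, one_mul]
      congr 1
      rw [Nat.cast_add, Nat.cast_sub hb]
      push_cast
      field_simp
      ring
    rw [h3]
    exact h2
  have h3 := HasSum.of_nat_of_neg_add_one
    (f := fun m : ℤ => Real.exp (-Real.pi * ((m : ℝ) + (b : ℝ) / q) ^ 2 * (q * y))) h1 h2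
  exact h.unique h3

/-- the odd kernel as a difference over two residue classes -/
lemma oddKernel_eq {q : ℕ} (hq : 0 < q) {y : ℝ} (hy : 0 < y) (b : ℕ) (hb : b ≤ q) :
    (q : ℝ) * HurwitzZeta.oddKernel (((b : ℝ) / q : ℝ) : UnitAddCircle) (q * y) =
      HH 1 q y b - HH 1 q y (q - b) := by
  have hqy : 0 < (q : ℝ) * y := by positivity
  have hq' : (q : ℝ) ≠ 0 := by positivity
  have h := (HurwitzZeta.hasSum_int_oddKernel ((b : ℝ) / q) hqy).mul_left (q : ℝ)
  have h1 : HasSum (fun m : ℕ => (q : ℝ) * ((((m : ℤ) : ℝ) + (b : ℝ) / q) *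
      Real.exp (-Real.pi * (((m : ℤ) : ℝ) + (b : ℝ) / q) ^ 2 * (q * y))))
      (HH 1 q y b) := by
    have h2 := (summable_hh_nat (Or.inr rfl) hq hy b).hasSum
    have h3 : (fun m : ℕ => (q : ℝ) * ((((m : ℤ) : ℝ) + (b : ℝ) / q) *
        Real.exp (-Real.pi * (((m : ℤ) : ℝ) + (b : ℝ) / q) ^ 2 * (q * y)))) =
        fun m : ℕ => hh 1 q y ((q * m + b : ℕ) : ℝ) := by
      funext m
      unfold hh
      have e1 : -Real.pi * (((m : ℤ) : ℝ) + (b : ℝ) / q) ^ 2 * (q * y) =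
          -(Real.pi * ((q * m + b : ℕ) : ℝ) ^ 2 * y / q) := by
        push_cast
        field_simp
      rw [e1, pow_one, ← mul_assoc]
      congr 1
      push_cast
      field_simp
    rw [h3]
    exact h2
  have h2 : HasSum (fun m : ℕ => (q : ℝ) * ((((-((m : ℤ) + 1) : ℤ) : ℝ) + (b : ℝ) / q) *
      Real.exp (-Real.pi * (((-((m : ℤ) + 1) : ℤ) : ℝ) + (b : ℝ) / q) ^ 2 * (q * y))))
      (-HH 1 q y (q - b)) := by
    have h2 := (summable_hh_nat (Or.inr rfl) hq hy (q - b)).hasSum.neg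
    have h3 : (fun m : ℕ => (q : ℝ) * ((((-((m : ℤ) + 1) : ℤ) : ℝ) + (b : ℝ) / q) *
        Real.exp (-Real.pi * (((-((m : ℤ) + 1) : ℤ) : ℝ) + (b : ℝ) / q) ^ 2 * (q * y)))) =
        fun m : ℕ => -hh 1 q y ((q * m + (q - b) : ℕ) : ℝ) := by
      funext m
      unfold hh
      have e1 : -Real.pi * (((-((m : ℤ) + 1) : ℤ) : ℝ) + (b : ℝ) / q) ^ 2 * (q * y) =
          -(Real.pi * ((q * m + (q - b) : ℕ) : ℝ) ^ 2 * y / q) := by
        rw [Nat.cast_add, Nat.cast_sub hb]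
        push_cast
        field_simp
        ring
      rw [e1, pow_one, ← mul_assoc, ← neg_mul]
      congr 1
      rw [Nat.cast_add, Nat.cast_sub hb]
      push_cast
      field_simp
      ring
    rw [h3]
    exact h2
  have h3 := HasSum.of_nat_of_neg_add_one
    (f := fun m : ℤ => (q : ℝ) * (((m : ℝ) + (b : ℝ) / q) *
      Real.exp (-Real.pi * ((m : ℝ) + (b : ℝ) / q) ^ 2 * (q * y)))) h1 h2
  rw [h.unique h3]
  ring

lemma sum_zmod (q : ℕ) [NeZero q] (g : ℕ → ℝ) : ∑ j : ZMod q, g j.val = ∑ a ∈ range q, g a := by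
  obtain ⟨k, rfl⟩ := Nat.exists_eq_succ_of_ne_zero (NeZero.ne q)
  exact Fin.sum_univ_eq_sum_range g _

/-- periodicity, bound -/
structure PB (q : ℕ) (c : ℕ → ℝ) : Prop where
  q0 : 0 < q
  per : ∀ m, m ≠ 0 → c (m + q) = c m
  bd : ∀ m, |c m| ≤ 1
  top : c q = 0

lemma PB.period {q : ℕ} {c : ℕ → ℝ} (h : PB q c) (m k : ℕ) (hm : m ≠ 0) :
    c (m + q * k) = c m := by
  induction k with
  | zero => simp
  | succ k ih =>
    rw [show m + q * (k + 1) = (m + q * k) + q by ring, h.per _ (by omega), ih]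

lemma summable_term {a : ℕ} (ha : a = 0 ∨ a = 1) {q : ℕ} {c : ℕ → ℝ} (hc : PB q c) {y : ℝ}
    (hy : 0 < y) : Summable fun n : ℕ => c (n + 1) * hh a q y ((n : ℝ) + 1) := by
  have hq := hc.q0
  have h1 : Summable fun n : ℕ => hh a q y ((n : ℝ) + 1) := by
    have hy' : 0 < y / q := by positivity
    have h := summable_hh_nat ha (q := 1) one_pos hy' 1
    refine h.congr fun n => ?_
    unfold hh
    push_cast
    rw [one_mul]
    congr 3
    ring
  refine Summable.of_norm_bounded h1 fun n => ?_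
  rw [norm_mul, Real.norm_eq_abs, Real.norm_eq_abs]
  have h2 : 0 ≤ hh a q y ((n : ℝ) + 1) := by
    unfold hh
    positivity
  rw [abs_of_nonneg h2]
  exact mul_le_of_le_one_left h2 (hc.bd _)

/-- the theta function as a sum over residue classes -/
lemma tt_eq {a : ℕ} (ha : a = 0 ∨ a = 1) {q : ℕ} {c : ℕ → ℝ} (hc : PB q c) {y : ℝ} (hy : 0 < y) :
    tt a q c y = ∑ b ∈ Icc 1 q, c b * HH a q y b := by
  have hq := hc.q0
  have : NeZero q := ⟨hq.ne'⟩
  unfold tt
  rw [Nat.sumByResidueClasses (summable_term ha hc hy) q]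
  have h2 : ∀ j : ZMod q, ∑' m : ℕ, c (j.val + q * m + 1) *
      hh a q y (((j.val + q * m : ℕ) : ℝ) + 1) = c (j.val + 1) * HH a q y (j.val + 1) := by
    intro j
    unfold HH
    rw [← tsum_mul_left]
    congr 1
    funext m
    rw [show j.val + q * m + 1 = (j.val + 1) + q * m by ring, hc.period _ m (by omega)]
    congr 2
    push_cast
    ring
  rw [Finset.sum_congr rfl fun j _ => h2 j,
    sum_zmod q (fun b => c (b + 1) * HH a q y (b + 1)),
    Finset.range_eq_Ico, Finset.sum_Ico_add' (fun b => c b * HH a q y b)]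
  refine Finset.sum_congr ?_ fun _ _ => rfl
  ext x
  simp only [mem_Ico, mem_Icc]
  omega

lemma sum_reflect {a : ℕ} {q : ℕ} {c : ℕ → ℝ} (hc : PB q c) (y s : ℝ)
    (hr : ∀ b, 1 ≤ b → b < q → c (q - b) = s * c b) :
    ∑ b ∈ Icc 1 q, c b * HH a q y (q - b) = s * ∑ b ∈ Icc 1 q, c b * HH a q y b := by
  have hq := hc.q0
  have hIcc : Icc 1 q = Ico 1 (q + 1) := by
    ext x
    simp only [mem_Icc, mem_Ico]
    omega
  rw [hIcc, Finset.sum_Ico_succ_top (by omega), Finset.sum_Ico_succ_top (by omega), hc.top]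
  simp only [zero_mul, add_zero]
  have h4 : ∀ b ∈ Ico 1 q, s * (c b * HH a q y (q - b)) =
      (fun x => c x * HH a q y x) (q - b) := by
    intro b hb
    have hb' := mem_Ico.1 hb
    simp only
    rw [hr b hb'.1 hb'.2]
    ring
  have h5 : s * ∑ b ∈ Ico 1 q, c b * HH a q y (q - b) = ∑ b ∈ Ico 1 q, c b * HH a q y b := by
    rw [Finset.mul_sum, Finset.sum_congr rfl h4,
      Finset.sum_Ico_reflect (fun x => c x * HH a q y x) 1 (by omega)]
    refine Finset.sum_congr ?_ fun _ _ => rfl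
    congr 1
    omega
  have hss : ∑ b ∈ Ico 1 q, c b * HH a q y (q - b) = s * (s * ∑ b ∈ Ico 1 q, c b * HH a q y (q - b)) := by
    have h6 : ∀ b ∈ Ico 1 q, c b = s * (s * c b) := by
      intro b hb
      have hb' := mem_Ico.1 hb
      rw [← hr b hb'.1 hb'.2, ← hr (q - b) (by omega) (by omega)]
      congr 1
      omega
    rw [Finset.mul_sum, Finset.mul_sum]
    refine Finset.sum_congr rfl fun b hb => ?_
    conv_lhs => rw [h6 b hb]
    ring
  rw [hss, h5]

theorem even_case {q : ℕ} {c : ℕ → ℝ} (hc : PB q c)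
    (hG : ∀ n : ℕ, n ≠ 0 → ∑ b ∈ Icc 1 (q - 1), c b * Real.cos (2 * Real.pi * b * n / q) =
      Real.sqrt q * c n) (y : ℝ) (hy : 0 < y) :
    tt 0 q c (1 / y) = Real.sqrt y * tt 0 q c y := by
  have hq := hc.q0
  have hqR : (0:ℝ) < q := by positivity
  have hsq : 0 < Real.sqrt q := Real.sqrt_pos.2 hqR
  have hIcc : ∀ g : ℕ → ℝ, ∑ b ∈ Icc 1 q, c b * g b = ∑ b ∈ Icc 1 (q - 1), c b * g b := by
    intro g
    have : Icc 1 q = insert q (Icc 1 (q - 1)) := by
      ext x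
      simp only [mem_Icc, mem_insert]
      omega
    rw [this, Finset.sum_insert (by simp only [mem_Icc]; omega), hc.top, zero_mul, zero_add]
  have hr : ∀ b, 1 ≤ b → b < q → c (q - b) = 1 * c b := by
    intro b hb1 hb2
    have h1 := hG b (by omega)
    have h2 := hG (q - b) (by omega)
    have h3 : ∑ x ∈ Icc 1 (q - 1), c x * Real.cos (2 * Real.pi * x * ((q - b : ℕ) : ℝ) / q) =
        ∑ x ∈ Icc 1 (q - 1), c x * Real.cos (2 * Real.pi * x * b / q) := by
      refine Finset.sum_congr rfl fun x _ => ?_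
      congr 1
      rw [Nat.cast_sub hb2.le]
      have : 2 * Real.pi * (x : ℝ) * ((q : ℝ) - b) / q =
          -(2 * Real.pi * x * b / q) + x * (2 * Real.pi) := by
        field_simp
        ring
      rw [this, Real.cos_add_nat_mul_two_pi, Real.cos_neg]
    rw [h3, h1] at h2
    have := mul_left_cancel₀ hsq.ne' h2
    rw [one_mul, this]
  have h0 : ∑ b ∈ Icc 1 q, c b = 0 := by
    have h := hG q hq.ne'
    rw [hc.top, mul_zero] at h
    have h2 := hIcc (fun _ => 1)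
    simp only [mul_one] at h2
    rw [h2, ← h]
    refine Finset.sum_congr rfl fun b _ => ?_
    have : 2 * Real.pi * (b : ℝ) * (q : ℝ) / q = (b : ℝ) * (2 * Real.pi) := by
      field_simp
    rw [this, Real.cos_nat_mul_two_pi, mul_one]
  -- sum of even kernels
  have hE : ∑ b ∈ Icc 1 q, c b *
      HurwitzZeta.evenKernel (((b : ℝ) / (q : ℝ) : ℝ) : UnitAddCircle) ((q : ℝ) * y) =
      2 * tt 0 q c y := by
    have h1 : ∀ b ∈ Icc 1 q, c b *
        HurwitzZeta.evenKernel (((b : ℝ) / (q : ℝ) : ℝ) : UnitAddCircle) ((q : ℝ) * y) =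
          c b * HH 0 q y b + c b * HH 0 q y (q - b) := by
      intro b hb
      rw [evenKernel_eq hq hy b (mem_Icc.1 hb).2]
      ring
    rw [Finset.sum_congr rfl h1, Finset.sum_add_distrib, sum_reflect hc y 1 hr,
      ← tt_eq (Or.inl rfl) hc hy]
    ring
  have ht : 0 < 1 / ((q : ℝ) * y) := by positivity
  have hC : ∑ b ∈ Icc 1 q, c b *
      HurwitzZeta.cosKernel (((b : ℝ) / (q : ℝ) : ℝ) : UnitAddCircle) (1 / ((q : ℝ) * y)) =
      2 * Real.sqrt q * tt 0 q c (1 / y) := by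
    have hsum : HasSum (fun n : ℕ => ∑ b ∈ Icc 1 q, c b *
        (2 * Real.cos (2 * Real.pi * ((b : ℝ) / (q : ℝ)) * (n + 1)) *
          Real.exp (-Real.pi * (n + 1) ^ 2 * (1 / ((q : ℝ) * y)))))
        (∑ b ∈ Icc 1 q, c b *
          (HurwitzZeta.cosKernel (((b : ℝ) / (q : ℝ) : ℝ) : UnitAddCircle)
            (1 / ((q : ℝ) * y)) - 1)) :=
      hasSum_sum fun b _ => (HurwitzZeta.hasSum_nat_cosKernel₀ _ ht).mul_left _
    have h1 : ∀ n : ℕ, ∑ b ∈ Icc 1 q, c b *
        (2 * Real.cos (2 * Real.pi * ((b : ℝ) / (q : ℝ)) * (n + 1)) *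
          Real.exp (-Real.pi * (n + 1) ^ 2 * (1 / ((q : ℝ) * y)))) =
        (2 * Real.sqrt q) * (c (n + 1) * hh 0 q (1 / y) ((n : ℝ) + 1)) := by
      intro n
      have h := hG (n + 1) (by omega)
      have e1 : ∀ b ∈ Icc 1 q, c b *
          (2 * Real.cos (2 * Real.pi * ((b : ℝ) / (q : ℝ)) * (n + 1)) *
            Real.exp (-Real.pi * (n + 1) ^ 2 * (1 / ((q : ℝ) * y)))) =
          (c b * Real.cos (2 * Real.pi * b * ((n + 1 : ℕ) : ℝ) / q)) *
            (2 * hh 0 q (1 / y) ((n : ℝ) + 1)) := by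
        intro b _
        have f1 : 2 * Real.pi * ((b : ℝ) / (q : ℝ)) * ((n : ℝ) + 1) =
            2 * Real.pi * b * ((n + 1 : ℕ) : ℝ) / q := by
          push_cast
          ring
        have f2 : Real.exp (-Real.pi * ((n : ℝ) + 1) ^ 2 * (1 / ((q : ℝ) * y))) =
            hh 0 q (1 / y) ((n : ℝ) + 1) := by
          unfold hh
          rw [pow_zero, one_mul]
          congr 1
          field_simp
        rw [f1, f2]
        ring
      rw [Finset.sum_congr rfl e1, ← Finset.sum_mul,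
        hIcc (fun b => Real.cos (2 * Real.pi * b * ((n + 1 : ℕ) : ℝ) / q)), h]
      ring
    simp only [h1] at hsum
    have h2 := hsum.tsum_eq
    rw [tsum_mul_left] at h2
    change 2 * Real.sqrt q * tt 0 q c (1 / y) = _ at h2
    rw [h2]
    have h4 : ∀ b ∈ Icc 1 q, c b *
          (HurwitzZeta.cosKernel (((b : ℝ) / (q : ℝ) : ℝ) : UnitAddCircle)
            (1 / ((q : ℝ) * y)) - 1) = c b *
          HurwitzZeta.cosKernel (((b : ℝ) / (q : ℝ) : ℝ) : UnitAddCircle)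
            (1 / ((q : ℝ) * y)) - c b := by
      intro b _
      ring
    rw [Finset.sum_congr rfl h4, Finset.sum_sub_distrib, h0, sub_zero]
  have h3 : ∀ b ∈ Icc 1 q, c b *
      HurwitzZeta.evenKernel (((b : ℝ) / (q : ℝ) : ℝ) : UnitAddCircle) ((q : ℝ) * y) =
        (1 / Real.sqrt ((q : ℝ) * y)) * (c b *
      HurwitzZeta.cosKernel (((b : ℝ) / (q : ℝ) : ℝ) : UnitAddCircle) (1 / ((q : ℝ) * y))) := by
    intro b _
    rw [HurwitzZeta.evenKernel_functional_equation, Real.sqrt_eq_rpow]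
    ring
  rw [Finset.sum_congr rfl h3, ← Finset.mul_sum, hC] at hE
  have hs1 : Real.sqrt ((q : ℝ) * y) = Real.sqrt q * Real.sqrt y := by
    rw [Real.sqrt_mul (by positivity)]
  have hp2 : 0 < Real.sqrt y := Real.sqrt_pos.2 hy
  rw [hs1] at hE
  have h4 : 1 / (Real.sqrt q * Real.sqrt y) * (2 * Real.sqrt q * tt 0 q c (1 / y)) =
      2 * tt 0 q c (1 / y) / Real.sqrt y := by
    field_simp
  rw [h4, div_eq_iff hp2.ne'] at hE
  linarith

theorem odd_case {q : ℕ} {c : ℕ → ℝ} (hc : PB q c)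
    (hG : ∀ n : ℕ, n ≠ 0 → ∑ b ∈ Icc 1 (q - 1), c b * Real.sin (2 * Real.pi * b * n / q) =
      Real.sqrt q * c n) (y : ℝ) (hy : 0 < y) :
    tt 1 q c (1 / y) = y ^ ((3 : ℝ) / 2) * tt 1 q c y := by
  have hq := hc.q0
  have hqR : (0:ℝ) < q := by positivity
  have hsq : 0 < Real.sqrt q := Real.sqrt_pos.2 hqR
  have hIcc : ∀ g : ℕ → ℝ, ∑ b ∈ Icc 1 q, c b * g b = ∑ b ∈ Icc 1 (q - 1), c b * g b := by
    intro g
    have : Icc 1 q = insert q (Icc 1 (q - 1)) := by
      ext x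
      simp only [mem_Icc, mem_insert]
      omega
    rw [this, Finset.sum_insert (by simp only [mem_Icc]; omega), hc.top, zero_mul, zero_add]
  have hr : ∀ b, 1 ≤ b → b < q → c (q - b) = (-1) * c b := by
    intro b hb1 hb2
    have h1 := hG b (by omega)
    have h2 := hG (q - b) (by omega)
    have h3 : ∑ x ∈ Icc 1 (q - 1), c x * Real.sin (2 * Real.pi * x * ((q - b : ℕ) : ℝ) / q) =
        -∑ x ∈ Icc 1 (q - 1), c x * Real.sin (2 * Real.pi * x * b / q) := by
      rw [← Finset.sum_neg_distrib]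
      refine Finset.sum_congr rfl fun x _ => ?_
      rw [Nat.cast_sub hb2.le]
      have : 2 * Real.pi * (x : ℝ) * ((q : ℝ) - b) / q =
          -(2 * Real.pi * x * b / q) + x * (2 * Real.pi) := by
        field_simp
        ring
      rw [this, Real.sin_add_nat_mul_two_pi, Real.sin_neg]
      ring
    rw [h3, h1] at h2
    have : Real.sqrt q * (-c b) = Real.sqrt q * c (q - b) := by rw [← h2]; ring
    have := mul_left_cancel₀ hsq.ne' this
    rw [← this]
    ring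
  -- sum of odd kernels
  have hE : (q : ℝ) * ∑ b ∈ Icc 1 q, c b *
      HurwitzZeta.oddKernel (((b : ℝ) / (q : ℝ) : ℝ) : UnitAddCircle) ((q : ℝ) * y) =
      2 * tt 1 q c y := by
    rw [Finset.mul_sum]
    have h1 : ∀ b ∈ Icc 1 q, (q : ℝ) * (c b *
        HurwitzZeta.oddKernel (((b : ℝ) / (q : ℝ) : ℝ) : UnitAddCircle) ((q : ℝ) * y)) =
          c b * HH 1 q y b - c b * HH 1 q y (q - b) := by
      intro b hb
      have := oddKernel_eq hq hy b (mem_Icc.1 hb).2
      calc (q : ℝ) * (c b *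
        HurwitzZeta.oddKernel (((b : ℝ) / (q : ℝ) : ℝ) : UnitAddCircle) ((q : ℝ) * y)) = c b *
        ((q : ℝ) * HurwitzZeta.oddKernel (((b : ℝ) / (q : ℝ) : ℝ) : UnitAddCircle) ((q : ℝ) * y)) :=
            by ring
        _ = _ := by rw [this]; ring
    rw [Finset.sum_congr rfl h1, Finset.sum_sub_distrib, sum_reflect hc y (-1) hr,
      ← tt_eq (Or.inr rfl) hc hy]
    ring
  have ht : 0 < 1 / ((q : ℝ) * y) := by positivity
  have hC : ∑ b ∈ Icc 1 q, c b *
      HurwitzZeta.sinKernel (((b : ℝ) / (q : ℝ) : ℝ) : UnitAddCircle) (1 / ((q : ℝ) * y)) =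
      2 * Real.sqrt q * tt 1 q c (1 / y) := by
    have hsum0 : HasSum (fun n : ℕ => ∑ b ∈ Icc 1 q, c b *
        (2 * (n : ℝ) * Real.sin (2 * Real.pi * ((b : ℝ) / (q : ℝ)) * n) *
          Real.exp (-Real.pi * (n : ℝ) ^ 2 * (1 / ((q : ℝ) * y)))))
        (∑ b ∈ Icc 1 q, c b *
          (HurwitzZeta.sinKernel (((b : ℝ) / (q : ℝ) : ℝ) : UnitAddCircle)
            (1 / ((q : ℝ) * y)))) :=
      hasSum_sum fun b _ => (HurwitzZeta.hasSum_nat_sinKernel _ ht).mul_left _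
    have hsum := (hasSum_nat_add_iff 1).2 (by simpa using hsum0 :
      HasSum (fun n : ℕ => ∑ b ∈ Icc 1 q, c b *
        (2 * (n : ℝ) * Real.sin (2 * Real.pi * ((b : ℝ) / (q : ℝ)) * n) *
          Real.exp (-Real.pi * (n : ℝ) ^ 2 * (1 / ((q : ℝ) * y)))))
        (∑ b ∈ Icc 1 q, c b *
          (HurwitzZeta.sinKernel (((b : ℝ) / (q : ℝ) : ℝ) : UnitAddCircle)
            (1 / ((q : ℝ) * y))) + ∑ i ∈ range 1, ∑ b ∈ Icc 1 q, c b *
        (2 * (i : ℝ) * Real.sin (2 * Real.pi * ((b : ℝ) / (q : ℝ)) * i) *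
          Real.exp (-Real.pi * (i : ℝ) ^ 2 * (1 / ((q : ℝ) * y))))))
    have h1 : ∀ n : ℕ, ∑ b ∈ Icc 1 q, c b *
        (2 * ((n + 1 : ℕ) : ℝ) * Real.sin (2 * Real.pi * ((b : ℝ) / (q : ℝ)) * ((n + 1 : ℕ) : ℝ)) *
          Real.exp (-Real.pi * ((n + 1 : ℕ) : ℝ) ^ 2 * (1 / ((q : ℝ) * y)))) =
        (2 * Real.sqrt q) * (c (n + 1) * hh 1 q (1 / y) ((n : ℝ) + 1)) := by
      intro n
      have h := hG (n + 1) (by omega)
      have e1 : ∀ b ∈ Icc 1 q, c b *
          (2 * ((n + 1 : ℕ) : ℝ) * Real.sin (2 * Real.pi * ((b : ℝ) / (q : ℝ)) * ((n + 1 : ℕ) : ℝ)) *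
            Real.exp (-Real.pi * ((n + 1 : ℕ) : ℝ) ^ 2 * (1 / ((q : ℝ) * y)))) =
          (c b * Real.sin (2 * Real.pi * b * ((n + 1 : ℕ) : ℝ) / q)) *
            (2 * hh 1 q (1 / y) ((n : ℝ) + 1)) := by
        intro b _
        have f1 : 2 * Real.pi * ((b : ℝ) / (q : ℝ)) * ((n + 1 : ℕ) : ℝ) =
            2 * Real.pi * b * ((n + 1 : ℕ) : ℝ) / q := by
          ring
        have f2 : ((n + 1 : ℕ) : ℝ) * Real.exp (-Real.pi * ((n + 1 : ℕ) : ℝ) ^ 2 *
            (1 / ((q : ℝ) * y))) = hh 1 q (1 / y) ((n : ℝ) + 1) := by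
          unfold hh
          rw [pow_one]
          push_cast
          congr 2
          field_simp
        rw [f1, ← f2]
        ring
      rw [Finset.sum_congr rfl e1, ← Finset.sum_mul,
        hIcc (fun b => Real.sin (2 * Real.pi * b * ((n + 1 : ℕ) : ℝ) / q)), h]
      ring
    simp only [h1] at hsum
    have h2 := hsum.tsum_eq
    rw [tsum_mul_left] at h2
    change 2 * Real.sqrt q * tt 1 q c (1 / y) = _ at h2
    rw [h2]
  have h3 : ∀ b ∈ Icc 1 q, c b *
      HurwitzZeta.oddKernel (((b : ℝ) / (q : ℝ) : ℝ) : UnitAddCircle) ((q : ℝ) * y) =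
        (1 / ((q : ℝ) * y) ^ ((3 : ℝ) / 2)) * (c b *
      HurwitzZeta.sinKernel (((b : ℝ) / (q : ℝ) : ℝ) : UnitAddCircle) (1 / ((q : ℝ) * y))) := by
    intro b _
    rw [HurwitzZeta.oddKernel_functional_equation]
    ring
  rw [Finset.sum_congr rfl h3, ← Finset.mul_sum, hC] at hE
  have hs1 : ((q : ℝ) * y) ^ ((3 : ℝ) / 2) = q * Real.sqrt q * y ^ ((3 : ℝ) / 2) := by
    rw [Real.mul_rpow hqR.le hy.le]
    congr 1
    rw [show (3 : ℝ) / 2 = 1 + 1 / 2 by norm_num, Real.rpow_add hqR, Real.rpow_one,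
      Real.sqrt_eq_rpow]
  have hp2 : 0 < y ^ ((3 : ℝ) / 2) := Real.rpow_pos_of_pos hy _
  rw [hs1] at hE
  have h4 : (q : ℝ) * (1 / ((q : ℝ) * Real.sqrt q * y ^ ((3 : ℝ) / 2)) *
      (2 * Real.sqrt q * tt 1 q c (1 / y))) = 2 * tt 1 q c (1 / y) / y ^ ((3 : ℝ) / 2) := by
    field_simp
  rw [h4, div_eq_iff hp2.ne'] at hE
  linarith

lemma js_abs (k : ℤ) (n : ℕ) : |js k n| ≤ 1 := by
  unfold js
  rcases jacobiSym.trichotomy k n with h | h | h <;> rw [h] <;> simp

lemma cf_abs (φ : FD) (hφ : Fam φ) (d n : ℕ) : |cf φ d n| ≤ 1 := by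
  have hη : |φ.η| ≤ 1 := by
    obtain ⟨ε, _, h | h | h | h⟩ := hφ <;> subst h
    · simp [F8]
    · simp [F4]
    · simp [F1]
    · simp [F1]
  unfold cf jo
  rw [abs_mul, abs_pow]
  have h1 : |φ.η| ^ (n.factorization 2) ≤ 1 := pow_le_one₀ (abs_nonneg _) hη
  have h2 : |if Odd (n / 2 ^ (n.factorization 2)) then js (φ.e * (d : ℤ))
      (n / 2 ^ (n.factorization 2)) else 0| ≤ 1 := by
    split_ifs
    · exact js_abs _ _
    · simp
  calc _ ≤ (1 : ℝ) * 1 := mul_le_mul h1 h2 (abs_nonneg _) zero_le_one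
    _ = 1 := one_mul 1

lemma pb (φ : FD) (hφ : Fam φ) (d : ℕ) (hd : φ.A d) (hs : Squarefree d) :
    PB (φ.r * d) (cf φ d) := by
  obtain ⟨h0, χ, _, _, hχ1, hχ, _⟩ := CC1 φ hφ d hd hs
  have hr : 0 < φ.r := by
    obtain ⟨ε, _, h | h | h | h⟩ := hφ <;> subst h
    · simp [F8]
    · simp [F4]
    · simp [F1]
    · simp [F1]
  have hq : 0 < φ.r * d := Nat.mul_pos hr h0
  refine ⟨hq, fun m hm => (CC2 φ hφ d hd hs 1 one_ne_zero).1 m hm, cf_abs φ hφ d, ?_⟩
  have h1 : φ.r * d ≠ 1 := by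
    intro h1
    apply hχ1
    have : Subsingleton (DirichletCharacter ℂ (φ.r * d)) := by
      rw [h1]
      infer_instance
    exact Subsingleton.elim _ _
  have : Fact (1 < φ.r * d) := ⟨by omega⟩
  have h2 := hχ (φ.r * d) hq.ne'
  rw [ZMod.natCast_self, MulChar.map_zero] at h2
  exact_mod_cast h2.symm

/-- functional equation of the theta function -/
theorem CC3 (φ : FD) (hφ : Fam φ) (d : ℕ) (hd : φ.A d) (hs : Squarefree d) (y : ℝ) (hy : 0 < y) :
    thg φ d (1 / y) = y ^ ((1 : ℝ) / 2 + φ.a) * thg φ d y := by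
  have hpb := pb φ hφ d hd hs
  have ha : φ.a = 0 ∨ φ.a = 1 := by
    obtain ⟨ε, _, h | h | h | h⟩ := hφ <;> subst h
    · simp only [F8]; split_ifs <;> simp
    · simp only [F4]; split_ifs <;> simp
    · simp only [F1]; split_ifs <;> simp
    · simp only [F1]; split_ifs <;> simp
  have hth : ∀ z : ℝ, thg φ d z = tt φ.a (φ.r * d) (cf φ d) z := by
    intro z
    unfold thg tt hh
    push_cast
    simp only [mul_assoc]
  rw [hth, hth]
  rcases ha with h | h
  · rw [h]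
    have h1 := even_case hpb (fun n hn => by
      have := ((CC2 φ hφ d hd hs n hn).2.1 h).1
      push_cast
      exact this) y hy
    rw [h1, Real.sqrt_eq_rpow]
    norm_num
  · rw [h]
    have h1 := odd_case hpb (fun n hn => by
      have := ((CC2 φ hφ d hd hs n hn).2.2 h).1
      push_cast
      exact this) y hy
    rw [h1]
    norm_num

end

end Pool.Agent.H823R2.RGCC3
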